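import Mathlib
import Pool.Agent.Q20.AS.CoreG

/-!
Preparations for the core theorem with a restricted set of primes and with forbidden classes: masses of the families
inside a subset of the primes, sums over a residue class, the final numerical inequality.
-/

set_option autoImplicit false

open Finset Filter

namespace Pool.Agent.Q20.AS

open Pool.Agent.H410R2.AC

/-- the numerical contradiction with an additional term `X M / 8` -/
lemma numericP (X M k G1 η K e C V R1 R2 R3 s0 : ℝ) (hX : 0 < X) (hM : 1 ≤ M)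
    (hs0 : X * M - (X * (K * e) + R1) ≤ s0)
    (hs1 : s0 ≤ k * ((1 / G1) ^ 2 * (X * (G1 * (η * M)) + (X * (K / V * e) + R2))) +
      (X / 8 * (M + K * e) + R3))
    (hG1 : 0 < G1) (he : 0 ≤ e) (hK : 0 ≤ K) (hV : 0 < V)
    (hkG : k * (1 / G1) * η ≤ 1 / 4) (hkV : k * (1 / G1) ^ 2 / V ≤ C)
    (hsmall : (2 * K + C * K) * e ≤ 1 / 4) (hR : R1 + k * ((1 / G1) ^ 2 * R2) + R3 ≤ X / 4) : False := by
  have h1 : k * ((1 / G1) ^ 2 * (X * (G1 * (η * M)) + (X * (K / V * e) + R2))) =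
      X * M * (k * (1 / G1) * η) + (k * (1 / G1) ^ 2 / V) * (X * (K * e)) +
        k * ((1 / G1) ^ 2 * R2) := by
    field_simp
    ring
  rw [h1] at hs1
  have h2 : X * M * (k * (1 / G1) * η) ≤ X * M * (1 / 4) := by
    refine mul_le_mul_of_nonneg_left hkG (by positivity)
  have h3 : (k * (1 / G1) ^ 2 / V) * (X * (K * e)) ≤ C * (X * (K * e)) := by
    refine mul_le_mul_of_nonneg_right hkV (by positivity)
  have h4 : X * ((2 * K + C * K) * e) ≤ X * (1 / 4) := mul_le_mul_of_nonneg_left hsmall hX.le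
  have h5 : X ≤ X * M := le_mul_of_one_le_right hX.le hM
  have h6 : 0 ≤ X * (K * e) := by positivity
  nlinarith

lemma wt_union {R1 R2 : Finset ℕ} (h : Disjoint R1 R2) : wt (R1 ∪ R2) = wt R1 * wt R2 := by
  unfold wt
  rw [prod_union h]

/-- the mass of the families inside a subset of the primes -/
lemma mass_sub {Q P : Finset ℕ} (hP : P ⊆ Q) (hQ : ∀ p ∈ Q, p.Prime)
    (hbad : ∑ p ∈ Q \ P, (1 : ℝ) / ((p : ℝ) - 1) ≤ 1) (L t : ℝ) (hL : 0 < L) :
    ∑ R ∈ Q.powerset.filter (fun R : Finset ℕ => Real.log (∏ p ∈ R, (p : ℝ)) / L ≤ t), wt R ≤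
      3 * ∑ R ∈ P.powerset.filter (fun R : Finset ℕ => Real.log (∏ p ∈ R, (p : ℝ)) / L ≤ t), wt R := by
  classical
  have hpos : ∀ p ∈ Q \ P, (0 : ℝ) ≤ 1 / ((p : ℝ) - 1) := by
    intro p hp
    have h2 : (1 : ℝ) < p := by exact_mod_cast (hQ p (sdiff_subset hp)).one_lt
    have : (0 : ℝ) < (p : ℝ) - 1 := by linarith
    positivity
  have hwt0 : ∀ R ⊆ Q, 0 ≤ wt R := fun R hR => wt_nonneg (fun p hp => hQ p (hR hp))
  -- the map R ↦ (R \ P, R ∩ P)
  have h1 : ∑ R ∈ Q.powerset.filter (fun R : Finset ℕ => Real.log (∏ p ∈ R, (p : ℝ)) / L ≤ t), wt R ≤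
      ∑ x ∈ (Q \ P).powerset ×ˢ P.powerset.filter
        (fun R : Finset ℕ => Real.log (∏ p ∈ R, (p : ℝ)) / L ≤ t), wt x.1 * wt x.2 := by
    have e1 : ∀ R ∈ Q.powerset.filter (fun R : Finset ℕ => Real.log (∏ p ∈ R, (p : ℝ)) / L ≤ t),
        wt R = wt (R \ P) * wt (R ∩ P) := by
      intro R _
      rw [← wt_union (disjoint_sdiff_inter R P), sdiff_union_inter]
    rw [sum_congr rfl e1]
    refine le_trans (le_of_eq ?_) (sum_le_sum_of_subset_of_nonneg (s := (Q.powerset.filter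
      (fun R : Finset ℕ => Real.log (∏ p ∈ R, (p : ℝ)) / L ≤ t)).image (fun R => (R \ P, R ∩ P))) ?_ ?_)
    · rw [sum_image]
      intro R _ R' _ h
      simp only [Prod.mk.injEq] at h
      rw [← sdiff_union_inter R P, ← sdiff_union_inter R' P, h.1, h.2]
    · intro x hx
      rw [mem_image] at hx
      obtain ⟨R, hR, rfl⟩ := hx
      rw [mem_filter, mem_powerset] at hR
      rw [mem_product, mem_filter, mem_powerset, mem_powerset]
      refine ⟨sdiff_subset_sdiff hR.1 le_rfl, inter_subset_right, ?_⟩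
      refine le_trans ?_ hR.2
      have hRp : ∀ p ∈ R, p.Prime := fun p hp => hQ p (hR.1 hp)
      have h2 : (0 : ℝ) < ∏ p ∈ R ∩ P, (p : ℝ) :=
        prod_pos (fun p hp => by exact_mod_cast (hRp p (mem_inter.1 hp).1).pos)
      have h3 : (∏ p ∈ R ∩ P, (p : ℝ)) ≤ ∏ p ∈ R, (p : ℝ) := by
        refine prod_le_prod_of_subset_of_one_le inter_subset_left (fun p hp => ?_) (fun p hp _ => ?_)
        · exact Nat.cast_nonneg p
        · exact_mod_cast (hRp p hp).one_lt.le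
      exact div_le_div_of_nonneg_right (Real.log_le_log h2 h3) hL.le
    · intro x hx _
      rw [mem_product, mem_filter, mem_powerset, mem_powerset] at hx
      exact mul_nonneg (hwt0 _ (hx.1.trans sdiff_subset)) (hwt0 _ (hx.2.1.trans hP))
  refine h1.trans ?_
  rw [sum_product]
  simp_rw [← mul_sum]
  rw [← sum_mul]
  refine mul_le_mul_of_nonneg_right ?_ (sum_nonneg (fun R hR =>
    hwt0 _ ((mem_powerset.1 (mem_filter.1 hR).1).trans hP)))
  have e2 : ∑ R ∈ (Q \ P).powerset, wt R = ∏ p ∈ Q \ P, (1 + 1 / ((p : ℝ) - 1)) := by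
    rw [prod_one_add]
    rfl
  rw [e2]
  calc ∏ p ∈ Q \ P, (1 + 1 / ((p : ℝ) - 1)) ≤ ∏ p ∈ Q \ P, Real.exp (1 / ((p : ℝ) - 1)) := by
        refine prod_le_prod (fun p hp => ?_) (fun p hp => ?_)
        · have := hpos p hp; linarith
        · have := Real.add_one_le_exp (1 / ((p : ℝ) - 1)); linarith
    _ = Real.exp (∑ p ∈ Q \ P, 1 / ((p : ℝ) - 1)) := (Real.exp_sum _ _).symm
    _ ≤ Real.exp 1 := Real.exp_le_exp.mpr hbad
    _ ≤ 3 := by have := Real.exp_one_lt_d9; linarith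

/-- the class of `m'` when `m = c + r m'` -/
noncomputable def rhoAP (ρ : ℕ → ℕ → ℕ) (r c p a : ℕ) : ℕ :=
  if h : p.Prime then
    haveI : Fact p.Prime := ⟨h⟩
    (((ρ p a : ZMod p) - (c : ZMod p)) * ((r : ZMod p))⁻¹).val
  else 0

lemma rhoAP_lt {ρ : ℕ → ℕ → ℕ} {r c p a : ℕ} (hp : p.Prime) : rhoAP ρ r c p a < p := by
  unfold rhoAP
  rw [dif_pos hp]
  haveI : Fact p.Prime := ⟨hp⟩
  exact ZMod.val_lt _

lemma rhoAP_iff {ρ : ℕ → ℕ → ℕ} {r c p a m : ℕ} (hp : p.Prime) (hr : ¬ p ∣ r) (hρ : ρ p a < p) :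
    (c + r * m) % p = ρ p a ↔ m % p = rhoAP ρ r c p a := by
  haveI : Fact p.Prime := ⟨hp⟩
  have hr0 : (r : ZMod p) ≠ 0 := fun h => hr ((ZMod.natCast_eq_zero_iff r p).mp h)
  unfold rhoAP
  rw [dif_pos hp]
  have h1 : m % p = (((m : ZMod p)).val) := (ZMod.val_natCast p m).symm
  have h2 : (c + r * m) % p = ρ p a ↔ ((c + r * m : ℕ) : ZMod p) = ((ρ p a : ℕ) : ZMod p) := by
    rw [ZMod.natCast_eq_natCast_iff', Nat.mod_eq_of_lt hρ]
  rw [h1, h2]
  have h3 : ((m : ZMod p)).val = (((ρ p a : ZMod p) - (c : ZMod p)) * ((r : ZMod p))⁻¹).val ↔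
      (m : ZMod p) = ((ρ p a : ZMod p) - (c : ZMod p)) * ((r : ZMod p))⁻¹ :=
    ⟨fun h => ZMod.val_injective p h, fun h => by rw [h]⟩
  rw [h3]
  push_cast
  constructor
  · intro h
    rw [← h]
    field_simp
    ring
  · intro h
    rw [h]
    field_simp
    ring

lemma rhoAP_eq {ρ : ℕ → ℕ → ℕ} {r c p a b : ℕ} (hp : p.Prime) (hr : ¬ p ∣ r) (ha : ρ p a < p)
    (hb : ρ p b < p) : rhoAP ρ r c p a = rhoAP ρ r c p b ↔ ρ p a = ρ p b := by
  constructor
  · intro h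
    have h1 : rhoAP ρ r c p a % p = rhoAP ρ r c p a := Nat.mod_eq_of_lt (rhoAP_lt hp)
    have h2 := (rhoAP_iff (c := c) (m := rhoAP ρ r c p a) hp hr ha).mpr h1
    have h3 := (rhoAP_iff (c := c) (m := rhoAP ρ r c p a) hp hr hb).mpr (h1.trans h)
    exact h2.symm.trans h3
  · intro h
    unfold rhoAP
    rw [h]

lemma psi_AP {ρ : ℕ → ℕ → ℕ} {r c p a m : ℕ} (hp : p.Prime) (hr : ¬ p ∣ r) (hρ : ρ p a < p) :
    psi ρ p (some a) (c + r * m) = psi (rhoAP ρ r c) p (some a) m := by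
  unfold psi
  by_cases h : (c + r * m) % p = ρ p a
  · have h2 := (rhoAP_iff hp hr hρ).mp h
    simp only [if_pos h, if_pos h2]
  · have h2 : ¬ m % p = rhoAP ρ r c p a := fun h3 => h ((rhoAP_iff hp hr hρ).mpr h3)
    simp only [if_neg h, if_neg h2]

lemma FF_AP {ρ : ℕ → ℕ → ℕ} {r c a m : ℕ} {P : Finset ℕ} {S : Finset (Finset ℕ)}
    (hS : ∀ R ∈ S, R ⊆ P) (hP : ∀ p ∈ P, p.Prime ∧ ¬ p ∣ r ∧ ρ p a < p) :
    FF ρ S (some a) (c + r * m) = FF (rhoAP ρ r c) S (some a) m := by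
  unfold FF
  refine sum_congr rfl (fun R hR => ?_)
  congr 1
  refine prod_congr rfl (fun p hp => ?_)
  obtain ⟨h1, h2, h3⟩ := hP p (hS R hR hp)
  exact psi_AP h1 h2 h3

/-- a sum over a residue class -/
lemma sum_class_le (f : ℕ → ℝ) (hf : ∀ m, 0 ≤ f m) (r c X : ℕ) (hr : 0 < r) :
    ∑ m ∈ (range X).filter (fun m => m % r = c), f m ≤ ∑ k ∈ range (X / r + 1), f (c + r * k) := by
  have h1 : ∑ m ∈ (range X).filter (fun m => m % r = c), f m =
      ∑ k ∈ ((range X).filter (fun m => m % r = c)).image (fun m => m / r), f (c + r * k) := by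
    rw [sum_image]
    · refine sum_congr rfl (fun m hm => ?_)
      have h2 := (mem_filter.1 hm).2
      congr 1
      rw [← h2]
      exact (Nat.mod_add_div m r).symm
    · intro m hm m' hm' h
      have h2 := (mem_filter.1 (mem_coe.1 hm)).2
      have h3 := (mem_filter.1 (mem_coe.1 hm')).2
      simp only at h
      rw [← Nat.mod_add_div m r, ← Nat.mod_add_div m' r, h2, h3, h]
  rw [h1]
  refine sum_le_sum_of_subset_of_nonneg ?_ (fun k _ _ => hf _)
  intro k hk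
  rw [mem_image] at hk
  obtain ⟨m, hm, rfl⟩ := hk
  have h2 := mem_range.1 (mem_filter.1 hm).1
  rw [mem_range]
  have : m / r ≤ X / r := Nat.div_le_div_right h2.le
  omega

end Pool.Agent.Q20.AS
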