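import Mathlib
import Pool.Agent.Q20.AS.CoreG

/-!
Arbitrary systems of at most `C log N` linear forms `u n + v` with `u ≤ J`, `|v| ≤ N ^ K`: some `n ≤ N` outside of a given
small set for which all forms have a prime factor `≤ N ^ (1/10)`.
-/

set_option autoImplicit false

open Finset Filter

namespace Pool.Agent.Q20.AS

open Pool.Agent.H410R2.AC

/-- the class of `m` modulo `p` for which `p` divides `u (b + Q m) + v` -/
noncomputable def rhoL (l : ℕ × ℤ) (b Q p : ℕ) : ℕ :=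
  if h : p.Prime then
    haveI : Fact p.Prime := ⟨h⟩
    (-((l.2 : ZMod p) + (l.1 : ZMod p) * (b : ZMod p)) * ((l.1 : ZMod p) * (Q : ZMod p))⁻¹).val
  else 0

lemma rhoL_lt {l : ℕ × ℤ} {b Q p : ℕ} (hp : p.Prime) : rhoL l b Q p < p := by
  unfold rhoL
  rw [dif_pos hp]
  haveI : Fact p.Prime := ⟨hp⟩
  exact ZMod.val_lt _

lemma rhoL_iff {l : ℕ × ℤ} {b Q p m : ℕ} (hp : p.Prime) (hl : ¬ p ∣ l.1) (hQ : ¬ p ∣ Q) :
    m % p = rhoL l b Q p ↔ (p : ℤ) ∣ (l.1 : ℤ) * ((b + Q * m : ℕ) : ℤ) + l.2 := by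
  haveI : Fact p.Prime := ⟨hp⟩
  have hQ0 : (Q : ZMod p) ≠ 0 := fun h => hQ ((ZMod.natCast_eq_zero_iff Q p).mp h)
  have hl0 : (l.1 : ZMod p) ≠ 0 := fun h => hl ((ZMod.natCast_eq_zero_iff l.1 p).mp h)
  unfold rhoL
  rw [dif_pos hp]
  have h1 : m % p = (((m : ZMod p)).val) := (ZMod.val_natCast p m).symm
  rw [h1]
  have h2 : ((m : ZMod p)).val =
      (-((l.2 : ZMod p) + (l.1 : ZMod p) * (b : ZMod p)) * ((l.1 : ZMod p) * (Q : ZMod p))⁻¹).val ↔
      (m : ZMod p) =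
        -((l.2 : ZMod p) + (l.1 : ZMod p) * (b : ZMod p)) * ((l.1 : ZMod p) * (Q : ZMod p))⁻¹ :=
    ⟨fun h => ZMod.val_injective p h, fun h => by rw [h]⟩
  rw [h2]
  have h3 : ((p : ℤ) ∣ (l.1 : ℤ) * ((b + Q * m : ℕ) : ℤ) + l.2) ↔
      ((((l.1 : ℤ) * ((b + Q * m : ℕ) : ℤ) + l.2 : ℤ)) : ZMod p) = 0 :=
    (ZMod.intCast_zmod_eq_zero_iff_dvd _ p).symm
  rw [h3]
  push_cast
  constructor
  · intro h
    rw [h]
    field_simp
    ring
  · intro h
    have h4 : (m : ZMod p) * ((l.1 : ZMod p) * Q) = -((l.2 : ZMod p) + (l.1 : ZMod p) * b) := by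
      linear_combination h
    rw [← h4]
    field_simp

lemma rhoL_collision {l l' : ℕ × ℤ} {b Q p : ℕ} (hp : p.Prime) (hl : ¬ p ∣ l.1) (hl' : ¬ p ∣ l'.1)
    (hQ : ¬ p ∣ Q) (h : rhoL l b Q p = rhoL l' b Q p) :
    (p : ℤ) ∣ (l.1 : ℤ) * l'.2 - (l'.1 : ℤ) * l.2 := by
  have h1 : rhoL l b Q p % p = rhoL l b Q p := Nat.mod_eq_of_lt (rhoL_lt hp)
  have h2 := (rhoL_iff hp hl hQ).mp h1
  have h3 := (rhoL_iff (l := l') hp hl' hQ).mp (h1.trans h)
  have h4 := dvd_sub (h3.mul_left (l.1 : ℤ)) (h2.mul_left (l'.1 : ℤ))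
  have h5 : (l.1 : ℤ) * l'.2 - (l'.1 : ℤ) * l.2 =
      (l.1 : ℤ) * ((l'.1 : ℤ) * ((b + Q * rhoL l b Q p : ℕ) : ℤ) + l'.2) -
      (l'.1 : ℤ) * ((l.1 : ℤ) * ((b + Q * rhoL l b Q p : ℕ) : ℤ) + l.2) := by ring
  rw [h5]
  exact h4

/-- greedy choice of the classes modulo the primes of `P0` -/
lemma greedy (L : Finset (ℕ × ℤ)) (P0 : Finset ℕ) :
    (∀ p ∈ P0, p.Prime ∧ ∀ l ∈ L, ¬ p ∣ l.1) → ∃ b < ∏ p ∈ P0, p,
      ((L.filter (fun l : ℕ × ℤ => ∀ p ∈ P0, ¬ (p : ℤ) ∣ (l.1 : ℤ) * (b : ℤ) + l.2)).card : ℝ) * Pi1 P0 ≤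
        L.card := by
  classical
  induction P0 using Finset.induction_on with
  | empty =>
    intro _
    refine ⟨0, by simp, ?_⟩
    simp [Pi1]
  | insert p P1 hpP ih =>
    intro h
    obtain ⟨b1, hb1, hc1⟩ := ih (fun q hq => h q (mem_insert_of_mem hq))
    obtain ⟨hp, hpl⟩ := h p (mem_insert_self p P1)
    set M := ∏ q ∈ P1, q with hM
    have hpM : ¬ p ∣ M := by
      rw [hM, hp.prime.dvd_finsetProd_iff]
      rintro ⟨q, hq, hpq⟩
      have := (Nat.prime_dvd_prime_iff_eq hp (h q (mem_insert_of_mem hq)).1).1 hpq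
      rw [this] at hpP
      exact hpP hq
    set S1 := L.filter (fun l : ℕ × ℤ => ∀ p ∈ P1, ¬ (p : ℤ) ∣ (l.1 : ℤ) * (b1 : ℤ) + l.2) with hS1
    have hp1 : 1 < p := hp.one_lt
    -- the number of survivors on average
    have hsum : ∑ c ∈ range p, (S1.filter (fun l : ℕ × ℤ =>
        ¬ (p : ℤ) ∣ (l.1 : ℤ) * ((b1 + M * c : ℕ) : ℤ) + l.2)).card ≤ S1.card * (p - 1) := by
      simp_rw [Finset.card_filter]
      rw [Finset.sum_comm]
      simp_rw [← Finset.card_filter]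
      rw [← smul_eq_mul]
      refine Finset.sum_le_card_nsmul _ _ _ (fun l hl => ?_)
      have hlL : l ∈ L := (mem_filter.1 hl).1
      have h1 : (range p).filter (fun c : ℕ => ¬ (p : ℤ) ∣ (l.1 : ℤ) * ((b1 + M * c : ℕ) : ℤ) + l.2) ⊆
          (range p).erase (rhoL l b1 M p) := by
        intro c hc
        rw [mem_filter] at hc
        rw [mem_erase]
        refine ⟨fun he => hc.2 ?_, hc.1⟩
        apply (rhoL_iff hp (hpl l hlL) hpM).mp
        rw [Nat.mod_eq_of_lt (mem_range.1 hc.1), he]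
      refine (card_le_card h1).trans ?_
      rw [card_erase_of_mem (mem_range.2 (rhoL_lt hp)), card_range]
    obtain ⟨c, hc, hcc⟩ : ∃ c ∈ range p, (S1.filter (fun l : ℕ × ℤ =>
        ¬ (p : ℤ) ∣ (l.1 : ℤ) * ((b1 + M * c : ℕ) : ℤ) + l.2)).card * p ≤ S1.card * (p - 1) := by
      by_contra hcon
      push Not at hcon
      have h1 : ∑ c ∈ range p, S1.card * (p - 1) < ∑ c ∈ range p, (S1.filter (fun l : ℕ × ℤ =>
          ¬ (p : ℤ) ∣ (l.1 : ℤ) * ((b1 + M * c : ℕ) : ℤ) + l.2)).card * p :=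
        Finset.sum_lt_sum_of_nonempty ⟨0, mem_range.2 hp.pos⟩ hcon
      rw [sum_const, card_range, smul_eq_mul, ← sum_mul] at h1
      have h2 := Nat.mul_le_mul_right p hsum
      rw [mul_comm] at h1
      exact absurd h1 (not_lt.2 h2)
    refine ⟨b1 + M * c, ?_, ?_⟩
    · rw [prod_insert hpP, ← hM]
      have : c + 1 ≤ p := mem_range.1 hc
      calc b1 + M * c < M + M * c := by omega
        _ = M * (c + 1) := by ring
        _ ≤ M * p := Nat.mul_le_mul_left _ this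
        _ = p * M := mul_comm _ _
    · have hsub : L.filter (fun l : ℕ × ℤ => ∀ q ∈ insert p P1,
          ¬ (q : ℤ) ∣ (l.1 : ℤ) * ((b1 + M * c : ℕ) : ℤ) + l.2) ⊆
          S1.filter (fun l : ℕ × ℤ => ¬ (p : ℤ) ∣ (l.1 : ℤ) * ((b1 + M * c : ℕ) : ℤ) + l.2) := by
        intro l hl
        rw [mem_filter] at hl
        rw [mem_filter, hS1, mem_filter]
        refine ⟨⟨hl.1, fun q hq hd => ?_⟩, hl.2 p (mem_insert_self _ _)⟩
        apply hl.2 q (mem_insert_of_mem hq)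
        have hqM : (q : ℤ) ∣ (M : ℤ) := by
          rw [hM]
          exact_mod_cast dvd_prod_of_mem (fun q => q) hq
        have e1 : (l.1 : ℤ) * ((b1 + M * c : ℕ) : ℤ) + l.2 =
            ((l.1 : ℤ) * (b1 : ℤ) + l.2) + (M : ℤ) * ((l.1 : ℤ) * c) := by push_cast; ring
        rw [e1]
        exact dvd_add hd (hqM.mul_right _)
      have hp1r : (0 : ℝ) < (p : ℝ) - 1 := by
        have : (1 : ℝ) < p := by exact_mod_cast hp1
        linarith
      have hPi0 : 0 ≤ Pi1 P1 := by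
        unfold Pi1
        refine prod_nonneg (fun q hq => ?_)
        have : (1 : ℝ) < q := by exact_mod_cast (h q (mem_insert_of_mem hq)).1.one_lt
        have : (0 : ℝ) < (q : ℝ) - 1 := by linarith
        positivity
      have e2 : Pi1 (insert p P1) = (1 + 1 / ((p : ℝ) - 1)) * Pi1 P1 := by
        unfold Pi1
        rw [prod_insert hpP]
      have h3 : ((S1.filter (fun l : ℕ × ℤ =>
          ¬ (p : ℤ) ∣ (l.1 : ℤ) * ((b1 + M * c : ℕ) : ℤ) + l.2)).card : ℝ) * p ≤ S1.card * ((p : ℝ) - 1) := by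
        have := hcc
        have e3 : ((p - 1 : ℕ) : ℝ) = (p : ℝ) - 1 := by
          rw [Nat.cast_sub hp1.le]; simp
        rw [← e3]
        exact_mod_cast this
      have h4 : ((S1.filter (fun l : ℕ × ℤ =>
          ¬ (p : ℤ) ∣ (l.1 : ℤ) * ((b1 + M * c : ℕ) : ℤ) + l.2)).card : ℝ) * (1 + 1 / ((p : ℝ) - 1)) ≤
          S1.card := by
        have e4 : (1 + 1 / ((p : ℝ) - 1)) = p / ((p : ℝ) - 1) := by
          field_simp
          ring
        rw [e4, mul_div_assoc', div_le_iff₀ hp1r]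
        exact h3
      calc _ ≤ ((S1.filter (fun l : ℕ × ℤ =>
          ¬ (p : ℤ) ∣ (l.1 : ℤ) * ((b1 + M * c : ℕ) : ℤ) + l.2)).card : ℝ) * Pi1 (insert p P1) := by
            refine mul_le_mul_of_nonneg_right (by exact_mod_cast card_le_card hsub) ?_
            rw [e2]
            positivity
        _ = (((S1.filter (fun l : ℕ × ℤ =>
          ¬ (p : ℤ) ∣ (l.1 : ℤ) * ((b1 + M * c : ℕ) : ℤ) + l.2)).card : ℝ) * (1 + 1 / ((p : ℝ) - 1))) *
            Pi1 P1 := by rw [e2]; ring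
        _ ≤ S1.card * Pi1 P1 := mul_le_mul_of_nonneg_right h4 hPi0
        _ ≤ L.card := hc1

/-- the primitive form -/
def prim (l : ℕ × ℤ) : ℕ × ℤ := (l.1 / Int.gcd l.1 l.2, l.2 / (Int.gcd l.1 l.2 : ℤ))

lemma prim_spec {l : ℕ × ℤ} (hl : 1 ≤ l.1) : 1 ≤ (prim l).1 ∧ (prim l).1 ≤ l.1 ∧
    |(prim l).2| ≤ |l.2| ∧ Int.gcd (prim l).1 (prim l).2 = 1 ∧ (∀ (p n : ℤ),
      p ∣ ((prim l).1 : ℤ) * n + (prim l).2 → p ∣ (l.1 : ℤ) * n + l.2) ∧ (prim l).1 ∣ l.1 := by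
  set g := Int.gcd l.1 l.2 with hg
  have hg0 : 0 < g := by
    rw [hg, Int.gcd_pos_iff]
    left
    exact_mod_cast (by omega : l.1 ≠ 0)
  have hg1 : g ∣ l.1 := by
    have := Int.gcd_dvd_left (a := (l.1 : ℤ)) (b := l.2)
    exact_mod_cast this
  have hg2 : (g : ℤ) ∣ l.2 := Int.gcd_dvd_right (a := (l.1 : ℤ)) (b := l.2)
  obtain ⟨a, ha⟩ := hg1
  obtain ⟨c, hc⟩ := hg2
  have e1 : (prim l).1 = a := by
    unfold prim
    simp only
    rw [← hg, ha, Nat.mul_div_cancel_left _ hg0]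
  have e2 : (prim l).2 = c := by
    unfold prim
    simp only
    rw [← hg, hc, Int.mul_ediv_cancel_left _ (by exact_mod_cast hg0.ne')]
  rw [e1, e2]
  refine ⟨?_, ?_, ?_, ?_, ?_, Dvd.intro_left g ha.symm⟩
  · rcases Nat.eq_zero_or_pos a with h | h
    · rw [h] at ha; omega
    · exact h
  · rw [ha]
    exact Nat.le_mul_of_pos_left a hg0
  · rw [hc, abs_mul]
    have h1 : (1 : ℤ) ≤ |(g : ℤ)| := by
      rw [abs_of_nonneg (by positivity)]
      exact_mod_cast hg0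
    exact le_mul_of_one_le_left (abs_nonneg _) h1
  · have h1 : g * Int.gcd a c = g * 1 := by
      have h2 : Int.gcd ((g : ℤ) * a) ((g : ℤ) * c) = g * Int.gcd a c := by
        rw [Int.gcd_mul_left]
        simp
      have e5 : (g : ℤ) * a = (l.1 : ℤ) := by exact_mod_cast ha.symm
      rw [← h2, mul_one, e5, ← hc]
    exact Nat.eq_of_mul_eq_mul_left hg0 h1
  · intro p n h
    have e3 : (l.1 : ℤ) * n + l.2 = g * ((a : ℤ) * n + c) := by
      rw [hc]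
      have : (l.1 : ℤ) = g * a := by rw [ha]; push_cast; ring
      rw [this]; ring
    rw [e3]
    exact h.mul_left _

lemma prim_ne {l l' : ℕ × ℤ} (_h1 : 1 ≤ l.1) (h1' : 1 ≤ l'.1) (hg : Int.gcd l.1 l.2 = 1)
    (hg' : Int.gcd l'.1 l'.2 = 1) (hne : l ≠ l') : (l.1 : ℤ) * l'.2 - (l'.1 : ℤ) * l.2 ≠ 0 := by
  intro h
  apply hne
  have e : (l.1 : ℤ) * l'.2 = (l'.1 : ℤ) * l.2 := by linarith
  have d1 : (l.1 : ℤ) ∣ (l'.1 : ℤ) := by
    have : (l.1 : ℤ) ∣ (l'.1 : ℤ) * l.2 := Dvd.intro _ e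
    exact (Int.isCoprime_iff_gcd_eq_one.mpr hg).dvd_of_dvd_mul_right this
  have d2 : (l'.1 : ℤ) ∣ (l.1 : ℤ) := by
    have : (l'.1 : ℤ) ∣ (l.1 : ℤ) * l'.2 := Dvd.intro _ e.symm
    exact (Int.isCoprime_iff_gcd_eq_one.mpr hg').dvd_of_dvd_mul_right this
  have e1 : l.1 = l'.1 := Nat.dvd_antisymm (by exact_mod_cast d1) (by exact_mod_cast d2)
  have e2 : l.2 = l'.2 := by
    rw [e1] at e
    have : (l'.1 : ℤ) ≠ 0 := by exact_mod_cast (by omega : l'.1 ≠ 0)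
    exact (mul_left_cancel₀ this e).symm
  exact Prod.ext e1 e2

open Pool.Agent.H647R2.ACNT (SH log_le_sum sum_factored nt5)

lemma log_le_Pi1 (H : ℕ) : Real.log H ≤ Pi1 (SH H) := by
  refine (log_le_sum H).trans ?_
  apply sum_factored
  · intro p hp
    exact (Finset.mem_filter.1 hp).2
  · intro n hn
    rw [Finset.mem_Icc] at hn
    rw [Nat.mem_factoredNumbers_iff_primeFactors_subset]
    refine ⟨by omega, ?_⟩
    intro p hp
    have h3 := Nat.prime_of_mem_primeFactors hp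
    have h4 := Nat.le_of_mem_primeFactors hp
    unfold SH
    rw [Finset.mem_filter, Finset.mem_range]
    exact ⟨by omega, h3⟩

lemma Pi1_ge_one (S : Finset ℕ) (hS : ∀ p ∈ S, p.Prime) : 1 ≤ Pi1 S := by
  unfold Pi1
  have : ∏ p ∈ S, (1 : ℝ) ≤ ∏ p ∈ S, (1 + 1 / ((p : ℝ) - 1)) := by
    refine prod_le_prod (fun _ _ => zero_le_one) (fun p hp => ?_)
    have : (1 : ℝ) < p := by exact_mod_cast (hS p hp).one_lt
    have : (0 : ℝ) < (p : ℝ) - 1 := by linarith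
    have : 0 ≤ 1 / ((p : ℝ) - 1) := by positivity
    linarith
  simpa using this

lemma SH_prime {H p : ℕ} (h : p ∈ SH H) : p.Prime ∧ p ≤ H := by
  unfold SH at h
  rw [mem_filter, mem_range] at h
  exact ⟨h.2, by omega⟩

theorem formsA (C : ℝ) (J K : ℕ) (hC : 1 ≤ C) (hJ : 1 ≤ J) : ∃ N₀ : ℕ, ∀ N : ℕ, N₀ ≤ N →
    ∀ L : Finset (ℕ × ℤ), (∀ l ∈ L, 1 ≤ l.1 ∧ (∀ p : ℕ, p.Prime → p ∣ l.1 → p ≤ J) ∧ l.1 ≤ N ^ K ∧
      |l.2| ≤ (N : ℤ) ^ K) →
    (L.card : ℝ) ≤ C * Real.log N → ∀ E : Finset ℕ, (E.card : ℝ) ≤ (N : ℝ) ^ (3 / 5 : ℝ) →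
    ∃ t : ℕ, t ≤ N ∧ t ∉ E ∧ ∀ l ∈ L, ∃ p : ℕ, p.Prime ∧ (p : ℝ) ≤ (N : ℝ) ^ (1 / 10 : ℝ) ∧
      (p : ℤ) ∣ (l.1 : ℤ) * (t : ℤ) + l.2 := by
  classical
  set cJ : ℝ := Pi1 (SH J) with hcJ
  have hcJ1 : 1 ≤ cJ := Pi1_ge_one _ (fun p hp => (SH_prime hp).1)
  obtain ⟨N₁, hN₁⟩ := coreG (C * cJ) (2 * (K : ℝ) + 1) (by nlinarith) (by
    have : (0 : ℝ) ≤ K := Nat.cast_nonneg K
    linarith)
  have hev : ∀ᶠ N : ℕ in atTop, N₁ ≤ N ∧ 100 * ((J : ℝ) + 2) ≤ Real.log N ∧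
      (2 : ℝ) ≤ (N : ℝ) ^ (1 / 20 : ℝ) ∧ 2 ≤ N ∧ 1 ≤ N := by
    filter_upwards [eventually_ge_atTop N₁, tendsto_log_nat.eventually_ge_atTop (100 * ((J : ℝ) + 2)),
      ((tendsto_rpow_atTop (by norm_num : (0 : ℝ) < 1 / 20)).comp
        tendsto_natCast_atTop_atTop).eventually_ge_atTop 2, eventually_ge_atTop 2,
      eventually_ge_atTop 1] with N a1 a2 a3 a4 a5
    exact ⟨a1, a2, a3, a4, a5⟩
  obtain ⟨N₀, hN₀⟩ := eventually_atTop.mp hev
  refine ⟨N₀, fun N hN L hL hLc E hE => ?_⟩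
  obtain ⟨hNN₁, hlog, h2, h2J, hN1⟩ := hN₀ N hN
  have hN1' : (1 : ℝ) ≤ N := by exact_mod_cast hN1
  have hN0 : (0 : ℝ) < N := by linarith
  have hJr : (1 : ℝ) ≤ J := by exact_mod_cast hJ
  obtain ⟨H, hH⟩ : ∃ H : ℕ, H = ⌊Real.log N / 100⌋₊ := ⟨_, rfl⟩
  obtain ⟨z, hz⟩ : ∃ z : ℕ, z = ⌊(N : ℝ) ^ (1 / 10 : ℝ)⌋₊ := ⟨_, rfl⟩
  have hHJ : J + 2 ≤ H := by
    rw [hH]
    apply Nat.le_floor
    push_cast
    linarith
  have hHle : (H : ℝ) ≤ Real.log N / 100 := by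
    rw [hH]
    exact Nat.floor_le (by linarith)
  have hzle : (z : ℝ) ≤ (N : ℝ) ^ (1 / 10 : ℝ) := by
    rw [hz]
    exact Nat.floor_le (by positivity)
  have hHz : H ≤ z := by
    rw [hH, hz]
    refine Nat.floor_le_floor ?_
    have h1 : Real.log (N : ℝ) ≤ (N : ℝ) ^ (1 / 10 : ℝ) / (1 / 10) :=
      Real.log_le_rpow_div hN0.le (by norm_num)
    have : (0 : ℝ) ≤ (N : ℝ) ^ (1 / 10 : ℝ) := by positivity
    linarith
  have hH0 : (0 : ℝ) < H := by exact_mod_cast (by omega : 0 < H)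
  have hlH : 0 < Real.log (H : ℝ) := Real.log_pos (by exact_mod_cast (by omega : 1 < H))
  -- the primitive forms
  set Lp : Finset (ℕ × ℤ) := L.image prim with hLp
  have hLpc : (Lp.card : ℝ) ≤ L.card := by exact_mod_cast card_image_le
  have hLpP : ∀ l ∈ Lp, 1 ≤ l.1 ∧ l.1 ≤ N ^ K ∧ |l.2| ≤ (N : ℤ) ^ K ∧ Int.gcd l.1 l.2 = 1 := by
    intro l hl
    rw [hLp, mem_image] at hl
    obtain ⟨l0, hl0, rfl⟩ := hl
    obtain ⟨a1, a4, a2, a3⟩ := hL l0 hl0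
    obtain ⟨b1, b2, b3, b4, -⟩ := prim_spec a1
    exact ⟨b1, b2.trans a2, b3.trans a3, b4⟩
  have hLpJ : ∀ l ∈ Lp, ∀ p : ℕ, p.Prime → p ∣ l.1 → p ≤ J := by
    intro l hl p hp hpl
    rw [hLp, mem_image] at hl
    obtain ⟨l0, hl0, rfl⟩ := hl
    obtain ⟨a1, a4, a2, a3⟩ := hL l0 hl0
    obtain ⟨b1, b2, b3, b4, b5, b6⟩ := prim_spec a1
    exact a4 p hp (hpl.trans b6)
  -- the small primes
  set P0 : Finset ℕ := (SH H).filter (fun p => J < p) with hP0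
  have hP0p : ∀ p ∈ P0, p.Prime ∧ p ≤ H ∧ J < p := by
    intro p hp
    rw [hP0, mem_filter] at hp
    exact ⟨(SH_prime hp.1).1, (SH_prime hp.1).2, hp.2⟩
  have hndvd : ∀ p : ℕ, p.Prime → J < p → ∀ l ∈ Lp, ¬ p ∣ l.1 := by
    intro p hpp hp l hl hd
    have h1 := hLpJ l hl p hpp hd
    omega
  obtain ⟨b, hb, hbc⟩ := greedy Lp P0 (fun p hp =>
    ⟨(hP0p p hp).1, hndvd p (hP0p p hp).1 (hP0p p hp).2.2⟩)
  set Q : ℕ := ∏ p ∈ P0, p with hQ
  have hQ0 : 0 < Q := prod_pos (fun p hp => (hP0p p hp).1.pos)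
  have hQle : (Q : ℝ) ≤ (N : ℝ) ^ (1 / 50 : ℝ) := by
    have h1 : Q ≤ primorial H := by
      have e : primorial H = ∏ p ∈ SH H, p := rfl
      rw [e, hQ]
      exact prod_le_prod_of_subset_of_one_le' (filter_subset _ _) (fun p hp _ => (SH_prime hp).1.one_lt.le)
    calc (Q : ℝ) ≤ (primorial H : ℝ) := by exact_mod_cast h1
      _ ≤ _ := Pool.Agent.H143R2.ACF.primorial_bound hN1 hHle
  have hQp : ∀ p ∈ PP H z, ¬ p ∣ Q := by
    intro p hp hd
    rw [hQ, (PP_prime hp).prime.dvd_finsetProd_iff] at hd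
    obtain ⟨q, hq, hpq⟩ := hd
    have h1 := (Nat.prime_dvd_prime_iff_eq (PP_prime hp) (hP0p q hq).1).1 hpq
    have h2 := PP_gt hp
    have h3 := (hP0p q hq).2.1
    omega
  set S : Finset (ℕ × ℤ) :=
    Lp.filter (fun l : ℕ × ℤ => ∀ p ∈ P0, ¬ (p : ℤ) ∣ (l.1 : ℤ) * (b : ℤ) + l.2) with hS
  have hSLp : S ⊆ Lp := filter_subset _ _
  have hScard : (S.card : ℝ) * Real.log H ≤ (C * cJ) * Real.log N := by
    have h1 : Pi1 (SH H) = cJ * Pi1 P0 := by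
      rw [hcJ]
      unfold Pi1
      rw [← prod_union]
      · apply prod_congr _ (fun _ _ => rfl)
        ext p
        rw [mem_union, hP0, mem_filter]
        constructor
        · intro hp
          rcases Nat.lt_or_ge J p with h | h
          · exact Or.inr ⟨hp, h⟩
          · left
            unfold SH
            rw [mem_filter, mem_range]
            exact ⟨by omega, (SH_prime hp).1⟩
        · rintro (hp | hp)
          · unfold SH
            rw [mem_filter, mem_range]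
            have := (SH_prime hp).2
            exact ⟨by omega, (SH_prime hp).1⟩
          · exact hp.1
      · rw [disjoint_left]
        intro p hp hp'
        have h1 := (SH_prime hp).2
        have h2 := (hP0p p hp').2.2
        omega
    have hl0 : 0 ≤ Real.log (N : ℝ) := Real.log_natCast_nonneg N
    calc (S.card : ℝ) * Real.log H ≤ S.card * Pi1 (SH H) :=
          mul_le_mul_of_nonneg_left (log_le_Pi1 H) (Nat.cast_nonneg _)
      _ = cJ * (S.card * Pi1 P0) := by rw [h1]; ring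
      _ ≤ cJ * Lp.card := mul_le_mul_of_nonneg_left hbc (by linarith)
      _ ≤ cJ * (C * Real.log N) := mul_le_mul_of_nonneg_left (hLpc.trans hLc) (by linarith)
      _ = (C * cJ) * Real.log N := by ring
  -- labels
  set B : Finset ℕ := S.image Encodable.encode with hB
  set ρ : ℕ → ℕ → ℕ := fun p a =>
    rhoL ((Encodable.decode (α := ℕ × ℤ) a).getD (1, 0)) b Q p with hρ
  have hρe : ∀ (p : ℕ) (l : ℕ × ℤ), ρ p (Encodable.encode l) = rhoL l b Q p := by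
    intro p l
    simp only [hρ, Encodable.encodek, Option.getD_some]
  have hBc : (B.card : ℝ) * Real.log H ≤ (C * cJ) * Real.log N := by
    have h1 : (B.card : ℝ) ≤ S.card := by exact_mod_cast card_image_le
    exact (mul_le_mul_of_nonneg_right h1 hlH.le).trans hScard
  have hρlt : ∀ p ∈ PP H z, ∀ a ∈ B, ρ p a < p := by
    intro p hp a _
    simp only [hρ]
    exact rhoL_lt (PP_prime hp)
  have hPJ : ∀ p ∈ PP H z, ∀ l ∈ Lp, ¬ p ∣ l.1 := by
    intro p hp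
    have := PP_gt hp
    exact hndvd p (PP_prime hp) (by omega)
  have hcol : ∀ a ∈ B, ∀ a' ∈ B, a ≠ a' →
      ∑ p ∈ (PP H z).filter (fun p : ℕ => ρ p a = ρ p a'), (1 : ℝ) / ((p : ℝ) - 1) ≤
        (2 * (K : ℝ) + 1) * (Real.log N / (H * Real.log H)) := by
    intro a ha a' ha' hne
    rw [hB, mem_image] at ha ha'
    obtain ⟨l, hl, rfl⟩ := ha
    obtain ⟨l', hl', rfl⟩ := ha'
    have hll : l ≠ l' := fun h => hne (by rw [h])
    obtain ⟨c1, c2, c3, c4⟩ := hLpP l (hSLp hl)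
    obtain ⟨d1, d2, d3, d4⟩ := hLpP l' (hSLp hl')
    have hdet := prim_ne c1 d1 c4 d4 hll
    set d : ℕ := ((l.1 : ℤ) * l'.2 - (l'.1 : ℤ) * l.2).natAbs with hd
    have hd1 : 1 ≤ d := Int.natAbs_pos.mpr hdet
    have hdN : d ≤ N ^ (2 * K + 1) := by
      have h1 : |(l.1 : ℤ) * l'.2 - (l'.1 : ℤ) * l.2| ≤ (N : ℤ) ^ (2 * K + 1) := by
        have e1 : |(l.1 : ℤ) * l'.2| ≤ (N : ℤ) ^ K * (N : ℤ) ^ K := by
          rw [abs_mul, abs_of_nonneg (by positivity : (0 : ℤ) ≤ (l.1 : ℤ))]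
          exact mul_le_mul (by exact_mod_cast c2) d3 (abs_nonneg _) (by positivity)
        have e2 : |(l'.1 : ℤ) * l.2| ≤ (N : ℤ) ^ K * (N : ℤ) ^ K := by
          rw [abs_mul, abs_of_nonneg (by positivity : (0 : ℤ) ≤ (l'.1 : ℤ))]
          exact mul_le_mul (by exact_mod_cast d2) c3 (abs_nonneg _) (by positivity)
        calc |(l.1 : ℤ) * l'.2 - (l'.1 : ℤ) * l.2| ≤ |(l.1 : ℤ) * l'.2| + |(l'.1 : ℤ) * l.2| := abs_sub _ _
          _ ≤ 2 * ((N : ℤ) ^ K * (N : ℤ) ^ K) := by linarith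
          _ ≤ (N : ℤ) * ((N : ℤ) ^ K * (N : ℤ) ^ K) := by
            refine mul_le_mul_of_nonneg_right (by exact_mod_cast h2J) (by positivity)
          _ = (N : ℤ) ^ (2 * K + 1) := by ring
      have h3 : (d : ℤ) ≤ (N : ℤ) ^ (2 * K + 1) := by
        rw [hd, Int.natCast_natAbs]
        exact h1
      exact_mod_cast h3
    have h5 := nt5 H z d (N ^ (2 * K + 1)) (by omega) hd1 hdN
    have e3 : Real.log ((N ^ (2 * K + 1) : ℕ) : ℝ) = (2 * (K : ℝ) + 1) * Real.log N := by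
      push_cast
      rw [Real.log_pow]
      push_cast
      ring
    rw [e3] at h5
    refine le_trans ?_ (h5.trans_eq (by ring))
    refine sum_le_sum_of_subset_of_nonneg ?_ ?_
    · intro p hp
      rw [mem_filter] at hp ⊢
      refine ⟨hp.1, ?_⟩
      rw [hρe, hρe] at hp
      have h6 := rhoL_collision (PP_prime hp.1) (hPJ p hp.1 l (hSLp hl)) (hPJ p hp.1 l' (hSLp hl'))
        (hQp p hp.1) hp.2
      rw [hd]
      exact Int.natCast_dvd.mp h6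
    · intro p hp _
      have h6 := (PP_prime (mem_filter.1 hp).1).one_lt
      have h7 : (1 : ℝ) < p := by exact_mod_cast h6
      have h8 : (0 : ℝ) < (p : ℝ) - 1 := by linarith
      positivity
  -- the length
  set X : ℕ := ⌊(N : ℝ) ^ (9 / 10 : ℝ)⌋₊ with hX
  have hXle : (X : ℝ) ≤ (N : ℝ) ^ (9 / 10 : ℝ) := Nat.floor_le (by positivity)
  have hXge : (N : ℝ) ^ (17 / 20 : ℝ) ≤ X := by
    have h1 : (N : ℝ) ^ (9 / 10 : ℝ) < X + 1 := Nat.lt_floor_add_one _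
    have h3 : (N : ℝ) ^ (9 / 10 : ℝ) = (N : ℝ) ^ (1 / 20 : ℝ) * (N : ℝ) ^ (17 / 20 : ℝ) := by
      rw [← Real.rpow_add hN0]; norm_num
    have h4 : 1 ≤ (N : ℝ) ^ (17 / 20 : ℝ) := Real.one_le_rpow hN1' (by norm_num)
    nlinarith
  have hX2 : (N : ℝ) ^ (1 / 2 : ℝ) ≤ X :=
    (Real.rpow_le_rpow_of_exponent_le hN1' (by norm_num)).trans hXge
  set E' : Finset ℕ := (range X).filter (fun m => b + Q * m ∈ E) with hE'
  have hE'c : (E'.card : ℝ) * (N : ℝ) ^ (1 / 4 : ℝ) ≤ X := by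
    have h1 : E'.card ≤ E.card := by
      refine card_le_card_of_injOn (fun m => b + Q * m) (fun m hm => (mem_filter.1 hm).2) ?_
      intro m _ m' _ h
      simp only at h
      exact Nat.eq_of_mul_eq_mul_left hQ0 (by omega)
    calc (E'.card : ℝ) * (N : ℝ) ^ (1 / 4 : ℝ) ≤ (E.card : ℝ) * (N : ℝ) ^ (1 / 4 : ℝ) := by
          gcongr
      _ ≤ (N : ℝ) ^ (3 / 5 : ℝ) * (N : ℝ) ^ (1 / 4 : ℝ) := by gcongr
      _ = (N : ℝ) ^ (17 / 20 : ℝ) := by rw [← Real.rpow_add hN0]; norm_num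
      _ ≤ X := hXge
  obtain ⟨m, hmX, hmE, hm⟩ := hN₁ N hNN₁ H z hH hz B ρ X hBc hρlt hcol hX2 E' hE'c
  refine ⟨b + Q * m, ?_, ?_, ?_⟩
  · have h1 : ((b + Q * m : ℕ) : ℝ) ≤ N := by
      have h3 : b + Q * m ≤ Q * X := by
        have : m + 1 ≤ X := hmX
        calc b + Q * m ≤ Q + Q * m := by omega
          _ = Q * (m + 1) := by ring
          _ ≤ Q * X := Nat.mul_le_mul_left _ this
      calc ((b + Q * m : ℕ) : ℝ) ≤ ((Q * X : ℕ) : ℝ) := by exact_mod_cast h3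
        _ = Q * X := by push_cast; ring
        _ ≤ (N : ℝ) ^ (1 / 50 : ℝ) * (N : ℝ) ^ (9 / 10 : ℝ) := by gcongr
        _ = (N : ℝ) ^ (23 / 25 : ℝ) := by rw [← Real.rpow_add hN0]; norm_num
        _ ≤ (N : ℝ) ^ (1 : ℝ) := Real.rpow_le_rpow_of_exponent_le hN1' (by norm_num)
        _ = N := Real.rpow_one _
    exact_mod_cast h1
  · intro h
    exact hmE (mem_filter.2 ⟨mem_range.2 hmX, h⟩)
  · intro l hl
    have hlp : prim l ∈ Lp := mem_image_of_mem _ hl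
    obtain ⟨-, -, -, -, hdv, -⟩ := prim_spec (hL l hl).1
    by_cases hpS : prim l ∈ S
    · obtain ⟨p, hp, hpm⟩ := hm (Encodable.encode (prim l)) (mem_image_of_mem _ hpS)
      rw [hρe] at hpm
      have h1 := (rhoL_iff (PP_prime hp) (hPJ p hp _ hlp) (hQp p hp)).mp hpm
      refine ⟨p, PP_prime hp, ?_, hdv _ _ h1⟩
      refine le_trans ?_ hzle
      exact_mod_cast PP_le hp
    · have h1 : ∃ p ∈ P0, (p : ℤ) ∣ ((prim l).1 : ℤ) * (b : ℤ) + (prim l).2 := by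
        by_contra hcon
        push Not at hcon
        exact hpS (mem_filter.2 ⟨hlp, hcon⟩)
      obtain ⟨p, hp, hpd⟩ := h1
      refine ⟨p, (hP0p p hp).1, ?_, hdv _ _ ?_⟩
      · refine le_trans ?_ hzle
        exact_mod_cast ((hP0p p hp).2.1.trans hHz)
      · have hqQ : (p : ℤ) ∣ (Q : ℤ) := by
          rw [hQ]
          exact_mod_cast dvd_prod_of_mem (fun q => q) hp
        have e1 : ((prim l).1 : ℤ) * ((b + Q * m : ℕ) : ℤ) + (prim l).2 =
            (((prim l).1 : ℤ) * (b : ℤ) + (prim l).2) + (Q : ℤ) * (((prim l).1 : ℤ) * m) := by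
          push_cast; ring
        rw [e1]
        exact dvd_add hpd (hqQ.mul_right _)

end Pool.Agent.Q20.AS
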