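import Mathlib
import Pool.Agent.Q20.AS.Forms

/-!
Arbitrary systems of at most `C log X` linear forms in short intervals and residue classes.
-/

set_option autoImplicit false

open Finset Filter

namespace Pool.Agent.Q20.AS

open Pool.Agent.H410R2.AC

/-- few `t` give small values of a linear form -/
lemma few_small (a : ℕ) (c : ℤ) (ha : 1 ≤ a) (M N : ℕ) :
    ((range (N + 1)).filter (fun t : ℕ => |(a : ℤ) * (t : ℤ) + c| ≤ (M : ℤ))).card ≤ 2 * M + 1 := by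
  classical
  have h : ((range (N + 1)).filter (fun t : ℕ => |(a : ℤ) * (t : ℤ) + c| ≤ (M : ℤ))).card ≤
      (Finset.Icc (-(M : ℤ)) (M : ℤ)).card := by
    refine card_le_card_of_injOn (fun t : ℕ => (a : ℤ) * (t : ℤ) + c) ?_ ?_
    · intro t ht
      have h1 := (mem_filter.1 ht).2
      rw [abs_le] at h1
      simp only [coe_Icc, Set.mem_Icc]
      exact h1
    · intro t _ t' _ he
      simp only at he
      have h1 : (a : ℤ) * (t : ℤ) = (a : ℤ) * (t' : ℤ) := by linarith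
      have h2 : (a : ℤ) ≠ 0 := by exact_mod_cast (by omega : a ≠ 0)
      exact_mod_cast mul_left_cancel₀ h2 h1
  refine h.trans ?_
  rw [Int.card_Icc]
  omega

theorem forms (C δ : ℝ) (J K : ℕ) (hδ : 0 < δ) (hJ : 1 ≤ J) : ∃ X₀ : ℕ, ∀ X : ℕ, X₀ ≤ X →
    ∀ L : Finset (ℕ × ℤ), (∀ l ∈ L, 1 ≤ l.1 ∧ (∀ p : ℕ, p.Prime → p ∣ l.1 → p ≤ J) ∧ l.1 ≤ X ^ K ∧
      |l.2| ≤ (X : ℤ) ^ K) →
    (L.card : ℝ) ≤ C * Real.log X → ∀ x q r : ℕ, x ≤ X ^ K → 1 ≤ q → q ≤ J →
    ∀ E : Finset ℕ, (E.card : ℝ) ≤ (X : ℝ) ^ (δ / 4) →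
    ∃ n : ℕ, x ≤ n ∧ (n : ℝ) ≤ x + (X : ℝ) ^ δ ∧ n ≡ r [MOD q] ∧ n ∉ E ∧
      ∀ l ∈ L, ∃ p : ℕ, p.Prime ∧ (p : ℝ) ≤ (X : ℝ) ^ δ ∧
        (p : ℤ) ∣ (l.1 : ℤ) * (n : ℤ) + l.2 ∧ (p : ℤ) < |(l.1 : ℤ) * (n : ℤ) + l.2| := by
  classical
  set C1 : ℝ := max C 1 with hC1
  have hC11 : 1 ≤ C1 := le_max_right _ _
  set D : ℕ := ⌈4 / δ⌉₊ with hD
  have hDδ : 4 / δ ≤ D := Nat.le_ceil _
  set C2 : ℝ := max (4 * C1 / δ) 1 with hC2
  obtain ⟨N₀, hN₀⟩ := formsA C2 J ((2 * K + 1) * D) (le_max_right _ _) hJ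
  have hδ2 : 0 < δ / 2 := by linarith
  have htend : Tendsto (fun X : ℕ => ⌊(X : ℝ) ^ (δ / 2)⌋₊) atTop atTop :=
    tendsto_nat_floor_atTop.comp ((tendsto_rpow_atTop hδ2).comp tendsto_natCast_atTop_atTop)
  have hev : ∀ᶠ X : ℕ in atTop, N₀ ≤ ⌊(X : ℝ) ^ (δ / 2)⌋₊ ∧ (4 : ℝ) ≤ (X : ℝ) ^ (δ / 4) ∧
      2 * (J : ℝ) ≤ (X : ℝ) ^ (δ / 2) ∧ J + 2 ≤ X ∧
      3 * C1 * Real.log X ≤ (X : ℝ) ^ (δ / 20) ∧ (2 : ℝ) ≤ (X : ℝ) ^ (δ / 50) ∧ 3 ≤ X := by
    filter_upwards [htend.eventually_ge_atTop N₀,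
      ((tendsto_rpow_atTop (by linarith : 0 < δ / 4)).comp
        tendsto_natCast_atTop_atTop).eventually_ge_atTop 4,
      ((tendsto_rpow_atTop hδ2).comp tendsto_natCast_atTop_atTop).eventually_ge_atTop (2 * (J : ℝ)),
      eventually_ge_atTop (J + 2), log_pow_small 1 (3 * C1) (δ / 20) (by linarith),
      ((tendsto_rpow_atTop (by linarith : 0 < δ / 50)).comp
        tendsto_natCast_atTop_atTop).eventually_ge_atTop 2, eventually_ge_atTop 3]
      with X a1 a2 a3 a4 a5 a6 a7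
    rw [pow_one] at a5
    exact ⟨a1, a2, a3, a4, a5, a6, a7⟩
  obtain ⟨X₀, hX₀⟩ := eventually_atTop.mp hev
  refine ⟨X₀, fun X hX L hL hLc x q r hx hq1 hqJ E hE => ?_⟩
  obtain ⟨hNN, h4, hJX, hJ2, hlg, h250, hX3⟩ := hX₀ X hX
  set N : ℕ := ⌊(X : ℝ) ^ (δ / 2)⌋₊ with hN
  have hX1 : (1 : ℝ) ≤ X := by exact_mod_cast (by omega : 1 ≤ X)
  have hX0 : (0 : ℝ) < X := by linarith
  have hNle : (N : ℝ) ≤ (X : ℝ) ^ (δ / 2) := Nat.floor_le (by positivity)
  have hdbl : (X : ℝ) ^ (δ / 2) = (X : ℝ) ^ (δ / 4) * (X : ℝ) ^ (δ / 4) := by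
    rw [← Real.rpow_add hX0]; congr 1; ring
  have hNge : (X : ℝ) ^ (δ / 4) ≤ N := by
    have h1 : (X : ℝ) ^ (δ / 2) < N + 1 := Nat.lt_floor_add_one _
    nlinarith
  have hN1 : (1 : ℝ) ≤ N := by linarith
  have hNpos : (0 : ℝ) < N := by linarith
  have hN1n : 1 ≤ N := by exact_mod_cast hN1
  have hlogX : 0 < Real.log (X : ℝ) := Real.log_pos (by exact_mod_cast (by omega : 1 < X))
  have hlogN : δ / 4 * Real.log X ≤ Real.log N := by
    rw [← Real.log_rpow hX0]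
    exact Real.log_le_log (by positivity) hNge
  -- X ≤ N ^ D
  have hXN : X ≤ N ^ D := by
    have h1 : (X : ℝ) ≤ (N : ℝ) ^ D := by
      calc (X : ℝ) = ((X : ℝ) ^ (δ / 4)) ^ (4 / δ) := by
            rw [← Real.rpow_mul hX0.le]
            rw [show δ / 4 * (4 / δ) = 1 by field_simp, Real.rpow_one]
        _ ≤ (N : ℝ) ^ (4 / δ) := Real.rpow_le_rpow (by positivity) hNge (by positivity)
        _ ≤ (N : ℝ) ^ (D : ℝ) := Real.rpow_le_rpow_of_exponent_le hN1 hDδ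
        _ = (N : ℝ) ^ D := Real.rpow_natCast _ _
    exact_mod_cast h1
  -- the starting point
  set x' : ℕ := x + (r + (q - 1) * x) % q with hx'
  have hx'1 : x ≤ x' := Nat.le_add_right _ _
  have hx'2 : x' < x + q := by
    have := Nat.mod_lt (r + (q - 1) * x) (by omega : q > 0)
    omega
  have hx'3 : x' ≡ r [MOD q] := by
    have h1 : x' ≡ x + (r + (q - 1) * x) [MOD q] := (Nat.mod_modEq _ _).add_left x
    have h2 : x + (r + (q - 1) * x) = r + q * x := by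
      obtain ⟨q', rfl⟩ : ∃ q', q = q' + 1 := ⟨q - 1, by omega⟩
      simp only [Nat.add_sub_cancel]
      ring
    rw [h2] at h1
    refine h1.trans ?_
    have h3 : r + q * x ≡ r + 0 [MOD q] := Nat.ModEq.add_left r (by
      rw [Nat.modEq_zero_iff_dvd]; exact Nat.dvd_mul_right q x)
    simpa using h3
  -- the forms in t
  set L' : Finset (ℕ × ℤ) := L.image (fun l : ℕ × ℤ => (l.1 * q, (l.1 : ℤ) * (x' : ℤ) + l.2)) with hL'
  have hxX : (x' : ℤ) ≤ (X : ℤ) ^ K + J := by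
    have h1 : x' ≤ X ^ K + J := by omega
    exact_mod_cast h1
  have hL'P : ∀ l ∈ L', 1 ≤ l.1 ∧ (∀ p : ℕ, p.Prime → p ∣ l.1 → p ≤ J) ∧
      l.1 ≤ N ^ ((2 * K + 1) * D) ∧ |l.2| ≤ (N : ℤ) ^ ((2 * K + 1) * D) := by
    intro l' hl'
    rw [hL', mem_image] at hl'
    obtain ⟨l, hl, rfl⟩ := hl'
    obtain ⟨a1, a4, a2, a3⟩ := hL l hl
    have h2 : X ^ (2 * K + 1) ≤ N ^ ((2 * K + 1) * D) := by
      rw [mul_comm (2 * K + 1) D, pow_mul]
      exact Nat.pow_le_pow_left hXN _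
    have hXKn : 1 ≤ X ^ K := Nat.one_le_pow _ _ (by omega)
    refine ⟨Nat.mul_pos a1 hq1, ?_, ?_, ?_⟩
    · intro p hp hpd
      rcases (Nat.Prime.dvd_mul hp).1 hpd with h | h
      · exact a4 p hp h
      · exact (Nat.le_of_dvd (by omega) h).trans hqJ
    · refine le_trans ?_ h2
      calc l.1 * q ≤ X ^ K * X := Nat.mul_le_mul a2 (by omega)
        _ = X ^ (K + 1) := (pow_succ X K).symm
        _ ≤ X ^ (2 * K + 1) := Nat.pow_le_pow_right (by omega) (by omega)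
    · have hXK : (1 : ℤ) ≤ (X : ℤ) ^ K := one_le_pow₀ (by exact_mod_cast (by omega : 1 ≤ X))
      have h1 : |(l.1 : ℤ) * (x' : ℤ) + l.2| ≤ (X : ℤ) ^ (2 * K + 1) := by
        calc |(l.1 : ℤ) * (x' : ℤ) + l.2| ≤ |(l.1 : ℤ) * (x' : ℤ)| + |l.2| := abs_add_le _ _
          _ ≤ (X : ℤ) ^ K * ((X : ℤ) ^ K + J) + (X : ℤ) ^ K := by
              refine add_le_add ?_ a3
              rw [abs_of_nonneg (by positivity)]
              exact mul_le_mul (by exact_mod_cast a2) hxX (by positivity) (by positivity)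
          _ ≤ (X : ℤ) ^ K * (X : ℤ) ^ K * (J + 2) := by
              have f1 : (X : ℤ) ^ K * J ≤ (X : ℤ) ^ K * (X : ℤ) ^ K * J := by
                refine mul_le_mul_of_nonneg_right ?_ (by positivity)
                exact le_mul_of_one_le_right (by positivity) hXK
              have f2 : (X : ℤ) ^ K ≤ (X : ℤ) ^ K * (X : ℤ) ^ K :=
                le_mul_of_one_le_right (by positivity) hXK
              linarith
          _ ≤ (X : ℤ) ^ K * (X : ℤ) ^ K * X := by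
              refine mul_le_mul_of_nonneg_left ?_ (by positivity)
              exact_mod_cast hJ2
          _ = (X : ℤ) ^ (2 * K + 1) := by ring
      refine h1.trans ?_
      exact_mod_cast h2
  have hL'c : (L'.card : ℝ) ≤ C2 * Real.log N := by
    have h1 : (L'.card : ℝ) ≤ L.card := by exact_mod_cast card_image_le
    have h2 : C * Real.log X ≤ C1 * Real.log X := mul_le_mul_of_nonneg_right (le_max_left _ _) hlogX.le
    have h3 : C1 * Real.log X ≤ (4 * C1 / δ) * Real.log N := by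
      calc C1 * Real.log X = (4 * C1 / δ) * (δ / 4 * Real.log X) := by field_simp
        _ ≤ (4 * C1 / δ) * Real.log N := mul_le_mul_of_nonneg_left hlogN (by positivity)
    have h4 : (4 * C1 / δ) * Real.log N ≤ C2 * Real.log N :=
      mul_le_mul_of_nonneg_right (le_max_left _ _) (Real.log_nonneg hN1)
    linarith
  -- the exceptional set
  set M : ℕ := ⌊(N : ℝ) ^ (1 / 10 : ℝ)⌋₊ with hM
  have hMle : (M : ℝ) ≤ (N : ℝ) ^ (1 / 10 : ℝ) := Nat.floor_le (by positivity)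
  set E' : Finset ℕ := (range (N + 1)).filter (fun t => x' + q * t ∈ E) ∪
    L'.biUnion (fun l => (range (N + 1)).filter
      (fun t : ℕ => |(l.1 : ℤ) * (t : ℤ) + l.2| ≤ (M : ℤ))) with hE'
  have hE'c : (E'.card : ℝ) ≤ (N : ℝ) ^ (3 / 5 : ℝ) := by
    have h1 : ((range (N + 1)).filter (fun t => x' + q * t ∈ E)).card ≤ E.card := by
      refine card_le_card_of_injOn (fun t => x' + q * t) (fun t ht => (mem_filter.1 ht).2) ?_
      intro t _ t' _ h
      simp only at h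
      exact Nat.eq_of_mul_eq_mul_left (by omega : 0 < q) (by omega)
    have h2 : (L'.biUnion (fun l => (range (N + 1)).filter
        (fun t : ℕ => |(l.1 : ℤ) * (t : ℤ) + l.2| ≤ (M : ℤ)))).card ≤ L.card * (2 * M + 1) := by
      refine (card_biUnion_le_card_mul _ _ (2 * M + 1)
        (fun l hl => few_small _ _ (hL'P l hl).1 M N)).trans ?_
      exact Nat.mul_le_mul_right _ card_image_le
    have h3 : (E'.card : ℝ) ≤ E.card + L.card * (2 * M + 1) := by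
      have h5 : E'.card ≤ E.card + L.card * (2 * M + 1) :=
        (card_union_le _ _).trans (add_le_add h1 h2)
      exact_mod_cast h5
    -- sizes
    have hNsmall : (N : ℝ) ^ (1 / 10 : ℝ) ≤ (X : ℝ) ^ (δ / 20) := by
      calc (N : ℝ) ^ (1 / 10 : ℝ) ≤ ((X : ℝ) ^ (δ / 2)) ^ (1 / 10 : ℝ) :=
            Real.rpow_le_rpow hNpos.le hNle (by norm_num)
        _ = (X : ℝ) ^ (δ / 20) := by
            rw [← Real.rpow_mul hX0.le]; congr 1; ring
    have hX220 : (2 : ℝ) ≤ (X : ℝ) ^ (δ / 20) :=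
      h250.trans (Real.rpow_le_rpow_of_exponent_le hX1 (by linarith))
    have hX20 : 1 ≤ (X : ℝ) ^ (δ / 20) := by linarith
    have hLr : (L.card : ℝ) ≤ C1 * Real.log X :=
      hLc.trans (mul_le_mul_of_nonneg_right (le_max_left _ _) hlogX.le)
    have h6 : (L.card : ℝ) * (2 * M + 1) ≤ (X : ℝ) ^ (δ / 20) * (X : ℝ) ^ (δ / 20) := by
      calc (L.card : ℝ) * (2 * M + 1) ≤ (C1 * Real.log X) * (3 * (X : ℝ) ^ (δ / 20)) := by
            gcongr
            linarith [hMle.trans hNsmall]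
        _ = (3 * C1 * Real.log X) * (X : ℝ) ^ (δ / 20) := by ring
        _ ≤ _ := by gcongr
    have h7 : (X : ℝ) ^ (δ / 20) * (X : ℝ) ^ (δ / 20) ≤ (X : ℝ) ^ (δ / 4) := by
      rw [← Real.rpow_add hX0]
      exact Real.rpow_le_rpow_of_exponent_le hX1 (by linarith)
    have h8 : 2 * (X : ℝ) ^ (δ / 4) ≤ (N : ℝ) ^ (3 / 5 : ℝ) := by
      have h9 : (X : ℝ) ^ (δ / 2) / 2 ≤ N := by
        have h1 : (X : ℝ) ^ (δ / 2) < N + 1 := Nat.lt_floor_add_one _
        nlinarith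
      have h10 : 2 * (X : ℝ) ^ (9 * δ / 20) ≤ (X : ℝ) ^ (δ / 2) := by
        have : (X : ℝ) ^ (δ / 2) = (X : ℝ) ^ (δ / 20) * (X : ℝ) ^ (9 * δ / 20) := by
          rw [← Real.rpow_add hX0]; congr 1; ring
        rw [this]
        have h11 : 0 ≤ (X : ℝ) ^ (9 * δ / 20) := by positivity
        nlinarith
      have h12 : (X : ℝ) ^ (9 * δ / 20) ≤ N := by linarith
      calc 2 * (X : ℝ) ^ (δ / 4) ≤ (X : ℝ) ^ (δ / 50) * (X : ℝ) ^ (δ / 4) := by
            gcongr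
        _ = (X : ℝ) ^ (27 * δ / 100) := by rw [← Real.rpow_add hX0]; congr 1; ring
        _ = ((X : ℝ) ^ (9 * δ / 20)) ^ (3 / 5 : ℝ) := by
            rw [← Real.rpow_mul hX0.le]; congr 1; ring
        _ ≤ (N : ℝ) ^ (3 / 5 : ℝ) := Real.rpow_le_rpow (by positivity) h12 (by norm_num)
    linarith
  obtain ⟨t, htN, htE, ht⟩ := hN₀ N hNN L' hL'P hL'c E' hE'c
  refine ⟨x' + q * t, by omega, ?_, ?_, ?_, ?_⟩
  · have h1 : ((x' + q * t : ℕ) : ℝ) ≤ x + J * (N + 1) := by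
      have h2 : x' + q * t ≤ x + J * (N + 1) := by
        calc x' + q * t ≤ x + q + q * t := by omega
          _ = x + q * (t + 1) := by ring
          _ ≤ x + J * (N + 1) := by
            gcongr
      exact_mod_cast h2
    refine h1.trans ?_
    have h3 : (J : ℝ) * (N + 1) ≤ (X : ℝ) ^ δ := by
      have e : (X : ℝ) ^ δ = (X : ℝ) ^ (δ / 2) * (X : ℝ) ^ (δ / 2) := by
        rw [← Real.rpow_add hX0]; congr 1; ring
      rw [e]
      have hJ0 : (0 : ℝ) ≤ J := Nat.cast_nonneg J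
      calc (J : ℝ) * (N + 1) ≤ J * (2 * (X : ℝ) ^ (δ / 2)) := by
            gcongr
            linarith
        _ = (2 * J) * (X : ℝ) ^ (δ / 2) := by ring
        _ ≤ _ := by gcongr
    linarith
  · have h1 : x' + q * t ≡ r + 0 [MOD q] := Nat.ModEq.add hx'3 (by
      rw [Nat.modEq_zero_iff_dvd]; exact Nat.dvd_mul_right q t)
    simpa using h1
  · intro h
    apply htE
    rw [hE', mem_union]
    left
    exact mem_filter.2 ⟨mem_range.2 (by omega), h⟩
  · intro l hl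
    obtain ⟨p, hp, hpN, hpd⟩ := ht _ (mem_image_of_mem (fun l : ℕ × ℤ =>
      (l.1 * q, (l.1 : ℤ) * (x' : ℤ) + l.2)) hl)
    simp only at hpd
    have e1 : ((l.1 * q : ℕ) : ℤ) * (t : ℤ) + ((l.1 : ℤ) * (x' : ℤ) + l.2) =
        (l.1 : ℤ) * ((x' + q * t : ℕ) : ℤ) + l.2 := by push_cast; ring
    rw [e1] at hpd
    refine ⟨p, hp, ?_, hpd, ?_⟩
    · refine hpN.trans ?_
      calc (N : ℝ) ^ (1 / 10 : ℝ) ≤ (N : ℝ) ^ (1 : ℝ) :=
            Real.rpow_le_rpow_of_exponent_le hN1 (by norm_num)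
        _ = N := Real.rpow_one _
        _ ≤ (X : ℝ) ^ (δ / 2) := hNle
        _ ≤ (X : ℝ) ^ δ := Real.rpow_le_rpow_of_exponent_le hX1 (by linarith)
    · have h1 : t ∉ L'.biUnion (fun l => (range (N + 1)).filter
          (fun t : ℕ => |(l.1 : ℤ) * (t : ℤ) + l.2| ≤ (M : ℤ))) := by
        intro h
        exact htE (by rw [hE', mem_union]; exact Or.inr h)
      rw [mem_biUnion] at h1
      push Not at h1
      have h2 := h1 _ (mem_image_of_mem (fun l : ℕ × ℤ =>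
        (l.1 * q, (l.1 : ℤ) * (x' : ℤ) + l.2)) hl)
      rw [mem_filter] at h2
      push Not at h2
      have h3 := h2 (mem_range.2 (by omega))
      simp only at h3
      rw [e1] at h3
      have h4 : p ≤ M := Nat.le_floor hpN
      have h5 : (p : ℤ) ≤ M := by exact_mod_cast h4
      omega

end Pool.Agent.Q20.AS
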