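import Mathlib
import Pool.Agent.Q20.AS.CoreP
import Pool.Agent.Q20.AS.Main

/-!
Arbitrary systems of linear forms `u n + v` whose leading coefficients are composed of the primes which divide `D`, at
`n ≤ N` with `x + n` prime to `D`: if there are at most `C (φ(D) / D) log N` forms, then some such `n` gives every form a
prime factor `≤ N ^ (1/10)` which does not divide `D`. Here `D ≤ N ^ K` is arbitrary.
-/

set_option autoImplicit false

open Finset Filter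

namespace Pool.Agent.Q20.AS

open Pool.Agent.H410R2.AC
open Pool.Agent.H647R2.ACNT (SH log_le_sum sum_factored nt5)

lemma Pi1_mono {S T : Finset ℕ} (h : S ⊆ T) (hT : ∀ p ∈ T, p.Prime) : Pi1 S ≤ Pi1 T := by
  unfold Pi1
  refine prod_le_prod_of_subset_of_one_le h (fun p hp => ?_) (fun p hp _ => ?_)
  · have h2 : (1 : ℝ) < p := by exact_mod_cast (hT p (h hp)).one_lt
    have : (0 : ℝ) < (p : ℝ) - 1 := by linarith
    positivity
  · have h2 : (1 : ℝ) < p := by exact_mod_cast (hT p hp).one_lt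
    have : (0 : ℝ) < (p : ℝ) - 1 := by linarith
    have : 0 ≤ 1 / ((p : ℝ) - 1) := by positivity
    linarith

/-- `D = φ(D) ∏ (1 + 1 / (p - 1))` -/
lemma totient_Pi1 {D : ℕ} (_hD : 1 ≤ D) : (D : ℝ) = (D.totient : ℝ) * Pi1 D.primeFactors := by
  have h := Nat.totient_mul_prod_primeFactors D
  have h1 : (D.totient : ℝ) * ∏ p ∈ D.primeFactors, (p : ℝ) = D * ∏ p ∈ D.primeFactors, ((p : ℝ) - 1) := by
    have h2 : ((D.totient * ∏ p ∈ D.primeFactors, p : ℕ) : ℝ) =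
        ((D * ∏ p ∈ D.primeFactors, (p - 1) : ℕ) : ℝ) := by exact_mod_cast h
    push_cast at h2
    rw [h2]
    congr 1
    refine prod_congr rfl (fun p hp => ?_)
    rw [Nat.cast_sub (Nat.prime_of_mem_primeFactors hp).one_lt.le]
    simp
  have h3 : (0 : ℝ) < ∏ p ∈ D.primeFactors, ((p : ℝ) - 1) := by
    refine prod_pos (fun p hp => ?_)
    have : (1 : ℝ) < p := by exact_mod_cast (Nat.prime_of_mem_primeFactors hp).one_lt
    linarith
  have h4 : Pi1 D.primeFactors = (∏ p ∈ D.primeFactors, (p : ℝ)) / ∏ p ∈ D.primeFactors, ((p : ℝ) - 1) := by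
    unfold Pi1
    rw [← prod_div_distrib]
    refine prod_congr rfl (fun p hp => ?_)
    have : (1 : ℝ) < p := by exact_mod_cast (Nat.prime_of_mem_primeFactors hp).one_lt
    have h5 : (p : ℝ) - 1 ≠ 0 := by linarith
    field_simp
    ring
  rw [h4, mul_div_assoc', h1]
  field_simp

theorem formsN (C : ℝ) (K : ℕ) (hC : 1 ≤ C) : ∃ N₀ : ℕ, ∀ N : ℕ, N₀ ≤ N →
    ∀ D x₀ : ℕ, 1 ≤ D → D ≤ N ^ K →
    ∀ L : Finset (ℕ × ℤ), (∀ l ∈ L, 1 ≤ l.1 ∧ (∀ p : ℕ, p.Prime → p ∣ l.1 → p ∣ D) ∧ l.1 ≤ N ^ K ∧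
      |l.2| ≤ (N : ℤ) ^ K) →
    (L.card : ℝ) * D ≤ C * D.totient * Real.log N →
    ∀ E : Finset ℕ, (E.card : ℝ) ≤ (N : ℝ) ^ (3 / 5 : ℝ) →
    ∃ t : ℕ, t ≤ N ∧ t ∉ E ∧ Nat.Coprime (x₀ + t) D ∧ ∀ l ∈ L, ∃ p : ℕ, p.Prime ∧ ¬ p ∣ D ∧
      (p : ℝ) ≤ (N : ℝ) ^ (1 / 10 : ℝ) ∧ (p : ℤ) ∣ (l.1 : ℤ) * (t : ℤ) + l.2 := by
  classical
  have hK0 : (0 : ℝ) ≤ K := Nat.cast_nonneg K
  obtain ⟨N₁, hN₁⟩ := coreP (C + K) (2 * (K : ℝ) + 1) (by linarith) (by linarith)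
  have hev : ∀ᶠ N : ℕ in atTop, N₁ ≤ N ∧ 100 * (3 : ℝ) ≤ Real.log N ∧
      (2 : ℝ) ≤ (N : ℝ) ^ (1 / 20 : ℝ) ∧ 2 ≤ N ∧ 1 ≤ N ∧
      Real.exp (200 * 32 * (K + 1)) ≤ Real.log N / 200 := by
    filter_upwards [eventually_ge_atTop N₁, tendsto_log_nat.eventually_ge_atTop (100 * (3 : ℝ)),
      ((tendsto_rpow_atTop (by norm_num : (0 : ℝ) < 1 / 20)).comp
        tendsto_natCast_atTop_atTop).eventually_ge_atTop 2, eventually_ge_atTop 2,
      eventually_ge_atTop 1,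
      tendsto_log_nat.eventually_ge_atTop (200 * Real.exp (200 * 32 * (K + 1)))]
      with N a1 a2 a3 a4 a5 a6
    refine ⟨a1, a2, a3, a4, a5, ?_⟩
    rw [le_div_iff₀ (by norm_num)]
    rw [mul_comm]
    exact a6
  obtain ⟨N₀, hN₀⟩ := eventually_atTop.mp hev
  refine ⟨N₀, fun N hN D x₀ hD1 hDN L hL hLc E hE => ?_⟩
  obtain ⟨hNN₁, hlog, h2, h2J, hN1, hexp⟩ := hN₀ N hN
  have hN1' : (1 : ℝ) ≤ N := by exact_mod_cast hN1
  have hN0 : (0 : ℝ) < N := by linarith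
  have hlN : 0 < Real.log (N : ℝ) := by linarith
  have hφ : 0 < D.totient := Nat.totient_pos.mpr hD1
  have hφr : (0 : ℝ) < D.totient := by exact_mod_cast hφ
  have hDr : (0 : ℝ) < D := by exact_mod_cast hD1
  obtain ⟨H, hH⟩ : ∃ H : ℕ, H = ⌊Real.log N / 100⌋₊ := ⟨_, rfl⟩
  obtain ⟨z, hz⟩ : ∃ z : ℕ, z = ⌊(N : ℝ) ^ (1 / 10 : ℝ)⌋₊ := ⟨_, rfl⟩
  have hH3 : 3 ≤ H := by
    rw [hH]
    apply Nat.le_floor
    push_cast
    linarith
  have hHle : (H : ℝ) ≤ Real.log N / 100 := by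
    rw [hH]
    exact Nat.floor_le (by linarith)
  have hHge : Real.log N / 200 ≤ H := by
    have h1 : Real.log N / 100 < H + 1 := by
      rw [hH]
      exact Nat.lt_floor_add_one _
    linarith
  have hzle : (z : ℝ) ≤ (N : ℝ) ^ (1 / 10 : ℝ) := by
    rw [hz]
    exact Nat.floor_le (by positivity)
  have hHz : H ≤ z := by
    rw [hH, hz]
    refine Nat.floor_le_floor ?_
    have h1 : Real.log (N : ℝ) ≤ (N : ℝ) ^ (1 / 10 : ℝ) / (1 / 10) :=
      Real.log_le_rpow_div hN0.le (by norm_num)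
    have : (0 : ℝ) ≤ (N : ℝ) ^ (1 / 10 : ℝ) := by positivity
    linarith
  have hH0 : (0 : ℝ) < H := by exact_mod_cast (by omega : 0 < H)
  have hlH : 0 < Real.log (H : ℝ) := Real.log_pos (by exact_mod_cast (by omega : 1 < H))
  have hlH2 : 200 * 32 * ((K : ℝ) + 1) ≤ Real.log H := by
    have h1 := Real.log_le_log (Real.exp_pos _) (hexp.trans hHge)
    rwa [Real.log_exp] at h1
  -- `K log N / (H log H) ≤ 1 / 32`
  have hKsmall : (K : ℝ) * Real.log N / (H * Real.log H) ≤ 1 / 32 := by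
    rw [div_le_iff₀ (by positivity)]
    have h1 : (K : ℝ) * Real.log N ≤ K * (200 * H) := by
      refine mul_le_mul_of_nonneg_left ?_ hK0
      linarith
    have h3 : 200 * 32 * (K : ℝ) ≤ Real.log H := by linarith
    have h4 : 200 * 32 * (K : ℝ) * H ≤ Real.log H * H := mul_le_mul_of_nonneg_right h3 hH0.le
    nlinarith
  -- the primitive forms
  set Lp : Finset (ℕ × ℤ) := L.image prim with hLp
  have hLpc : (Lp.card : ℝ) ≤ L.card := by exact_mod_cast card_image_le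
  have hLpP : ∀ l ∈ Lp, 1 ≤ l.1 ∧ l.1 ≤ N ^ K ∧ |l.2| ≤ (N : ℤ) ^ K ∧ Int.gcd l.1 l.2 = 1 := by
    intro l hl
    rw [hLp, mem_image] at hl
    obtain ⟨l0, hl0, rfl⟩ := hl
    obtain ⟨a1, a4, a2, a3⟩ := hL l0 hl0
    obtain ⟨b1, b2, b3, b4, -⟩ := prim_spec a1
    exact ⟨b1, b2.trans a2, b3.trans a3, b4⟩
  have hndvd : ∀ p : ℕ, p.Prime → ¬ p ∣ D → ∀ l ∈ Lp, ¬ p ∣ l.1 := by
    intro p hp hpD l hl hpl
    rw [hLp, mem_image] at hl
    obtain ⟨l0, hl0, rfl⟩ := hl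
    obtain ⟨a1, a4, a2, a3⟩ := hL l0 hl0
    obtain ⟨b1, b2, b3, b4, b5, b6⟩ := prim_spec a1
    exact hpD (a4 p hp (hpl.trans b6))
  -- the small primes
  set P0 : Finset ℕ := (SH H).filter (fun p => ¬ p ∣ D) with hP0
  set Pd : Finset ℕ := (SH H).filter (fun p => p ∣ D) with hPd
  have hP0p : ∀ p ∈ P0, p.Prime ∧ p ≤ H ∧ ¬ p ∣ D := by
    intro p hp
    rw [hP0, mem_filter] at hp
    exact ⟨(SH_prime hp.1).1, (SH_prime hp.1).2, hp.2⟩
  have hPdp : ∀ p ∈ Pd, p.Prime ∧ p ≤ H ∧ p ∣ D := by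
    intro p hp
    rw [hPd, mem_filter] at hp
    exact ⟨(SH_prime hp.1).1, (SH_prime hp.1).2, hp.2⟩
  obtain ⟨b0, hb0, hbc⟩ := greedy Lp P0 (fun p hp =>
    ⟨(hP0p p hp).1, hndvd p (hP0p p hp).1 (hP0p p hp).2.2⟩)
  set Q0 : ℕ := ∏ p ∈ P0, p with hQ0d
  set Qd : ℕ := ∏ p ∈ Pd, p with hQdd
  have hQ00 : 0 < Q0 := prod_pos (fun p hp => (hP0p p hp).1.pos)
  have hQd0 : 0 < Qd := prod_pos (fun p hp => (hPdp p hp).1.pos)
  have hcop : Nat.Coprime Q0 Qd := by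
    rw [hQ0d, hQdd]
    refine Nat.Coprime.prod_left (fun p hp => Nat.Coprime.prod_right (fun q hq => ?_))
    rw [Nat.coprime_primes (hP0p p hp).1 (hPdp q hq).1]
    intro h
    exact (hP0p p hp).2.2 (h ▸ (hPdp q hq).2.2)
  set Q : ℕ := Q0 * Qd with hQ
  have hQ0 : 0 < Q := Nat.mul_pos hQ00 hQd0
  have hQprod : Q = ∏ p ∈ SH H, p := by
    rw [hQ, hQ0d, hQdd, mul_comm]
    exact prod_filter_mul_prod_filter_not (SH H) (fun p => p ∣ D) (fun p => p)
  have hQle : (Q : ℝ) ≤ (N : ℝ) ^ (1 / 50 : ℝ) := by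
    have e : primorial H = ∏ p ∈ SH H, p := rfl
    rw [hQprod, ← e]
    exact Pool.Agent.H143R2.ACF.primorial_bound hN1 hHle
  have hQbig : ∀ p : ℕ, p.Prime → H < p → ¬ p ∣ Q := by
    intro p hp hpH hd
    rw [hQprod, hp.prime.dvd_finsetProd_iff] at hd
    obtain ⟨q, hq, hpq⟩ := hd
    have h1 := (Nat.prime_dvd_prime_iff_eq hp (SH_prime hq).1).1 hpq
    have h3 := (SH_prime hq).2
    omega
  -- the class `b`
  obtain ⟨b, hbQ, hb1, hb2⟩ : ∃ b < Q, b ≡ b0 [MOD Q0] ∧ x₀ + b ≡ 1 [MOD Qd] := by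
    obtain ⟨k, hk1, hk2⟩ := Nat.chineseRemainder hcop b0 (1 + (Qd - 1) * x₀)
    refine ⟨k % Q, Nat.mod_lt _ hQ0, ?_, ?_⟩
    · have h1 : k % Q ≡ k [MOD Q0] := (Nat.mod_modEq k Q).of_mul_right Qd
      exact h1.trans hk1
    · have h1 : k % Q ≡ k [MOD Qd] := (Nat.mod_modEq k Q).of_mul_left Q0
      have h3 : x₀ + k % Q ≡ x₀ + (1 + (Qd - 1) * x₀) [MOD Qd] := (h1.trans hk2).add_left x₀
      have h4 : x₀ + (1 + (Qd - 1) * x₀) = 1 + Qd * x₀ := by
        obtain ⟨q', hq'⟩ : ∃ q', Qd = q' + 1 := ⟨Qd - 1, by omega⟩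
        rw [hq', Nat.add_sub_cancel]
        ring
      rw [h4] at h3
      refine h3.trans ?_
      have h5 : 1 + Qd * x₀ ≡ 1 + 0 [MOD Qd] := Nat.ModEq.add_left 1 (by
        rw [Nat.modEq_zero_iff_dvd]; exact Nat.dvd_mul_right Qd x₀)
      simpa using h5
  have hbdvd : ∀ p ∈ P0, ∀ l : ℕ × ℤ, (p : ℤ) ∣ (l.1 : ℤ) * (b : ℤ) + l.2 ↔
      (p : ℤ) ∣ (l.1 : ℤ) * (b0 : ℤ) + l.2 := by
    intro p hp l
    have h1 : (p : ℤ) ∣ (b : ℤ) - b0 := by
      have h3 : (Q0 : ℤ) ∣ (b : ℤ) - b0 := (Nat.modEq_iff_dvd.mp hb1.symm)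
      have h4 : (p : ℤ) ∣ (Q0 : ℤ) := by
        rw [hQ0d]
        exact_mod_cast dvd_prod_of_mem (fun q => q) hp
      exact h4.trans h3
    have h5 : (l.1 : ℤ) * (b : ℤ) + l.2 = ((l.1 : ℤ) * (b0 : ℤ) + l.2) + (l.1 : ℤ) * ((b : ℤ) - b0) := by
      ring
    rw [h5]
    exact dvd_add_left (h1.mul_left _)
  set S : Finset (ℕ × ℤ) :=
    Lp.filter (fun l : ℕ × ℤ => ∀ p ∈ P0, ¬ (p : ℤ) ∣ (l.1 : ℤ) * (b : ℤ) + l.2) with hS
  have hSLp : S ⊆ Lp := filter_subset _ _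
  have hSeq : S = Lp.filter (fun l : ℕ × ℤ => ∀ p ∈ P0, ¬ (p : ℤ) ∣ (l.1 : ℤ) * (b0 : ℤ) + l.2) := by
    rw [hS]
    refine filter_congr (fun l _ => ?_)
    refine forall₂_congr (fun p hp => ?_)
    rw [hbdvd p hp l]
  rw [← hSeq] at hbc
  have hScard : (S.card : ℝ) * Real.log H ≤ C * Real.log N := by
    have h1 : Pi1 (SH H) = Pi1 P0 * Pi1 Pd := by
      unfold Pi1
      rw [mul_comm]
      exact (prod_filter_mul_prod_filter_not (SH H) (fun p => p ∣ D) _).symm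
    have h3 : (D.totient : ℝ) * Pi1 Pd ≤ D := by
      have h4 : Pi1 Pd ≤ Pi1 D.primeFactors := by
        refine Pi1_mono (fun p hp => ?_) (fun p hp => Nat.prime_of_mem_primeFactors hp)
        obtain ⟨h5, -, h6⟩ := hPdp p hp
        exact Nat.mem_primeFactors.mpr ⟨h5, h6, by omega⟩
      calc (D.totient : ℝ) * Pi1 Pd ≤ D.totient * Pi1 D.primeFactors :=
            mul_le_mul_of_nonneg_left h4 hφr.le
        _ = D := (totient_Pi1 hD1).symm
    have hPi0 : 0 ≤ Pi1 P0 := le_trans zero_le_one (Pi1_ge_one _ (fun p hp => (hP0p p hp).1))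
    have hPid : 0 ≤ Pi1 Pd := le_trans zero_le_one (Pi1_ge_one _ (fun p hp => (hPdp p hp).1))
    have h7 : ((S.card : ℝ) * Real.log H) * D.totient ≤ (C * Real.log N) * D.totient := by
      calc ((S.card : ℝ) * Real.log H) * D.totient ≤ (S.card * Pi1 (SH H)) * D.totient := by
            refine mul_le_mul_of_nonneg_right ?_ hφr.le
            exact mul_le_mul_of_nonneg_left (log_le_Pi1 H) (Nat.cast_nonneg _)
        _ = (S.card * Pi1 P0) * (D.totient * Pi1 Pd) := by rw [h1]; ring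
        _ ≤ (L.card : ℝ) * D := by
            refine mul_le_mul (hbc.trans hLpc) h3 (by positivity) (Nat.cast_nonneg _)
        _ ≤ C * D.totient * Real.log N := hLc
        _ = (C * Real.log N) * D.totient := by ring
    exact le_of_mul_le_mul_right h7 hφr
  -- labels
  set B : Finset ℕ := S.image Encodable.encode with hB
  set ρ : ℕ → ℕ → ℕ := fun p a =>
    rhoL ((Encodable.decode (α := ℕ × ℤ) a).getD (1, 0)) b Q p with hρ
  have hρe : ∀ (p : ℕ) (l : ℕ × ℤ), ρ p (Encodable.encode l) = rhoL l b Q p := by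
    intro p l
    simp only [hρ, Encodable.encodek, Option.getD_some]
  have hBc : (B.card : ℝ) * Real.log H ≤ (C + K) * Real.log N := by
    have h1 : (B.card : ℝ) ≤ S.card := by exact_mod_cast card_image_le
    have h3 : 0 ≤ (K : ℝ) * Real.log N := by positivity
    have h4 := mul_le_mul_of_nonneg_right h1 hlH.le
    linarith
  -- the primes
  set P : Finset ℕ := (PP H z).filter (fun p => ¬ p ∣ D) with hP
  have hPP : P ⊆ PP H z := filter_subset _ _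
  have hPD : ∀ p ∈ P, ¬ p ∣ D := fun p hp => (mem_filter.1 hp).2
  have hQp : ∀ p ∈ P, ¬ p ∣ Q := fun p hp => hQbig p (PP_prime (hPP hp)) (PP_gt (hPP hp))
  have hρlt : ∀ p ∈ P, ∀ a : ℕ, ρ p a < p := by
    intro p hp a
    simp only [hρ]
    exact rhoL_lt (PP_prime (hPP hp))
  have hbad : ∑ p ∈ PP H z \ P, (1 : ℝ) / ((p : ℝ) - 1) ≤ 1 := by
    have h1 : PP H z \ P = (PP H z).filter (fun p => p ∣ D) := by
      ext p
      rw [Finset.mem_sdiff, hP, mem_filter, mem_filter]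
      tauto
    rw [h1]
    have h5 := nt5 H z D (N ^ K) (by omega) hD1 hDN
    have e3 : Real.log ((N ^ K : ℕ) : ℝ) = (K : ℝ) * Real.log N := by
      push_cast
      rw [Real.log_pow]
    rw [e3] at h5
    linarith
  have hPJ : ∀ p ∈ P, ∀ l ∈ Lp, ¬ p ∣ l.1 := fun p hp => hndvd p (PP_prime (hPP hp)) (hPD p hp)
  have hcol : ∀ a ∈ B, ∀ a' ∈ B, a ≠ a' →
      ∑ p ∈ P.filter (fun p : ℕ => ρ p a = ρ p a'), (1 : ℝ) / ((p : ℝ) - 1) ≤
        (2 * (K : ℝ) + 1) * (Real.log N / (H * Real.log H)) := by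
    intro a ha a' ha' hne
    rw [hB, mem_image] at ha ha'
    obtain ⟨l, hl, rfl⟩ := ha
    obtain ⟨l', hl', rfl⟩ := ha'
    have hll : l ≠ l' := fun h => hne (by rw [h])
    obtain ⟨c1, c2, c3, c4⟩ := hLpP l (hSLp hl)
    obtain ⟨d1, d2, d3, d4⟩ := hLpP l' (hSLp hl')
    have hdet := prim_ne c1 d1 c4 d4 hll
    set d : ℕ := ((l.1 : ℤ) * l'.2 - (l'.1 : ℤ) * l.2).natAbs with hd
    have hd1 : 1 ≤ d := Int.natAbs_pos.mpr hdet
    have hdN : d ≤ N ^ (2 * K + 1) := by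
      have h1 : |(l.1 : ℤ) * l'.2 - (l'.1 : ℤ) * l.2| ≤ (N : ℤ) ^ (2 * K + 1) := by
        have e1 : |(l.1 : ℤ) * l'.2| ≤ (N : ℤ) ^ K * (N : ℤ) ^ K := by
          rw [abs_mul, abs_of_nonneg (by positivity : (0 : ℤ) ≤ (l.1 : ℤ))]
          exact mul_le_mul (by exact_mod_cast c2) d3 (abs_nonneg _) (by positivity)
        have e2 : |(l'.1 : ℤ) * l.2| ≤ (N : ℤ) ^ K * (N : ℤ) ^ K := by
          rw [abs_mul, abs_of_nonneg (by positivity : (0 : ℤ) ≤ (l'.1 : ℤ))]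
          exact mul_le_mul (by exact_mod_cast d2) c3 (abs_nonneg _) (by positivity)
        calc |(l.1 : ℤ) * l'.2 - (l'.1 : ℤ) * l.2| ≤ |(l.1 : ℤ) * l'.2| + |(l'.1 : ℤ) * l.2| := abs_sub _ _
          _ ≤ 2 * ((N : ℤ) ^ K * (N : ℤ) ^ K) := by linarith
          _ ≤ (N : ℤ) * ((N : ℤ) ^ K * (N : ℤ) ^ K) := by
            refine mul_le_mul_of_nonneg_right (by exact_mod_cast h2J) (by positivity)
          _ = (N : ℤ) ^ (2 * K + 1) := by ring
      have h3 : (d : ℤ) ≤ (N : ℤ) ^ (2 * K + 1) := by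
        rw [hd, Int.natCast_natAbs]
        exact h1
      exact_mod_cast h3
    have h5 := nt5 H z d (N ^ (2 * K + 1)) (by omega) hd1 hdN
    have e3 : Real.log ((N ^ (2 * K + 1) : ℕ) : ℝ) = (2 * (K : ℝ) + 1) * Real.log N := by
      push_cast
      rw [Real.log_pow]
      push_cast
      ring
    rw [e3] at h5
    refine le_trans ?_ (h5.trans_eq (by ring))
    refine sum_le_sum_of_subset_of_nonneg ?_ ?_
    · intro p hp
      rw [mem_filter] at hp ⊢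
      refine ⟨hPP hp.1, ?_⟩
      rw [hρe, hρe] at hp
      have h6 := rhoL_collision (PP_prime (hPP hp.1)) (hPJ p hp.1 l (hSLp hl)) (hPJ p hp.1 l' (hSLp hl'))
        (hQp p hp.1) hp.2
      rw [hd]
      exact Int.natCast_dvd.mp h6
    · intro p hp _
      have h6 := (PP_prime (mem_filter.1 hp).1).one_lt
      have h7 : (1 : ℝ) < p := by exact_mod_cast h6
      have h8 : (0 : ℝ) < (p : ℝ) - 1 := by linarith
      positivity
  -- the forbidden classes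
  set R : Finset ℕ := D.primeFactors.filter (fun r => H < r) with hR
  have hRp : ∀ r ∈ R, r.Prime ∧ r ∉ P := by
    intro r hr
    rw [hR, mem_filter, Nat.mem_primeFactors] at hr
    exact ⟨hr.1.1, fun h => hPD r h hr.1.2.1⟩
  have hRc0 : (R.card : ℝ) * Real.log H ≤ K * Real.log N := by
    have h1 : H ^ R.card ≤ D := by
      calc H ^ R.card = ∏ _r ∈ R, H := by rw [prod_const]
        _ ≤ ∏ r ∈ R, r := prod_le_prod' (fun r hr => (mem_filter.1 hr).2.le)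
        _ ≤ ∏ r ∈ D.primeFactors, r := prod_le_prod_of_subset_of_one_le' (filter_subset _ _)
            (fun r hr _ => (Nat.prime_of_mem_primeFactors hr).one_lt.le)
        _ ≤ D := Nat.le_of_dvd hD1 (Nat.prod_primeFactors_dvd D)
    have h3 : ((H ^ R.card : ℕ) : ℝ) ≤ ((N ^ K : ℕ) : ℝ) := by exact_mod_cast h1.trans hDN
    push_cast at h3
    have h4 := Real.log_le_log (by positivity) h3
    rwa [Real.log_pow, Real.log_pow] at h4
  have hRs : ∑ r ∈ R, (1 : ℝ) / (r : ℝ) ≤ 1 / 32 := by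
    have h1 : ∑ r ∈ R, (1 : ℝ) / (r : ℝ) ≤ ∑ _r ∈ R, (1 : ℝ) / (H : ℝ) := by
      refine sum_le_sum (fun r hr => ?_)
      have h3 : (H : ℝ) ≤ r := by exact_mod_cast (mem_filter.1 hr).2.le
      exact one_div_le_one_div_of_le hH0 h3
    rw [sum_const, nsmul_eq_mul] at h1
    refine h1.trans (le_trans ?_ hKsmall)
    rw [mul_one_div, div_le_div_iff₀ hH0 (by positivity)]
    nlinarith
  have hRc : (R.card : ℝ) ≤ (C + K) * Real.log N := by
    have h1 : (1 : ℝ) ≤ Real.log H := by linarith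
    have h3 : (R.card : ℝ) * 1 ≤ R.card * Real.log H := mul_le_mul_of_nonneg_left h1 (Nat.cast_nonneg _)
    have h4 : 0 ≤ C * Real.log N := by positivity
    linarith
  -- the length
  set X : ℕ := ⌊(N : ℝ) ^ (9 / 10 : ℝ)⌋₊ with hX
  have hXle : (X : ℝ) ≤ (N : ℝ) ^ (9 / 10 : ℝ) := Nat.floor_le (by positivity)
  have hXge : (N : ℝ) ^ (17 / 20 : ℝ) ≤ X := by
    have h1 : (N : ℝ) ^ (9 / 10 : ℝ) < X + 1 := Nat.lt_floor_add_one _
    have h3 : (N : ℝ) ^ (9 / 10 : ℝ) = (N : ℝ) ^ (1 / 20 : ℝ) * (N : ℝ) ^ (17 / 20 : ℝ) := by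
      rw [← Real.rpow_add hN0]; norm_num
    have h4 : 1 ≤ (N : ℝ) ^ (17 / 20 : ℝ) := Real.one_le_rpow hN1' (by norm_num)
    nlinarith
  have hX2 : (N : ℝ) ^ (1 / 2 : ℝ) ≤ X :=
    (Real.rpow_le_rpow_of_exponent_le hN1' (by norm_num)).trans hXge
  set E' : Finset ℕ := (range X).filter (fun m => b + Q * m ∈ E) with hE'
  have hE'c : (E'.card : ℝ) * (N : ℝ) ^ (1 / 4 : ℝ) ≤ X := by
    have h1 : E'.card ≤ E.card := by
      refine card_le_card_of_injOn (fun m => b + Q * m) (fun m hm => (mem_filter.1 hm).2) ?_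
      intro m _ m' _ h
      simp only at h
      exact Nat.eq_of_mul_eq_mul_left hQ0 (by omega)
    calc (E'.card : ℝ) * (N : ℝ) ^ (1 / 4 : ℝ) ≤ (E.card : ℝ) * (N : ℝ) ^ (1 / 4 : ℝ) := by
          gcongr
      _ ≤ (N : ℝ) ^ (3 / 5 : ℝ) * (N : ℝ) ^ (1 / 4 : ℝ) := by gcongr
      _ = (N : ℝ) ^ (17 / 20 : ℝ) := by rw [← Real.rpow_add hN0]; norm_num
      _ ≤ X := hXge
  obtain ⟨m, hmX, hmE, hmR, hm⟩ := hN₁ N hNN₁ H z hH hz B P R ρ (fun r => rhoL (1, (x₀ : ℤ)) b Q r) X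
    hBc hPP hbad hρlt hcol hRp hRs hRc hX2 E' hE'c
  refine ⟨b + Q * m, ?_, ?_, ?_, ?_⟩
  · have h1 : ((b + Q * m : ℕ) : ℝ) ≤ N := by
      have h3 : b + Q * m ≤ Q * X := by
        have : m + 1 ≤ X := hmX
        calc b + Q * m ≤ Q + Q * m := by omega
          _ = Q * (m + 1) := by ring
          _ ≤ Q * X := Nat.mul_le_mul_left _ this
      calc ((b + Q * m : ℕ) : ℝ) ≤ ((Q * X : ℕ) : ℝ) := by exact_mod_cast h3
        _ = Q * X := by push_cast; ring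
        _ ≤ (N : ℝ) ^ (1 / 50 : ℝ) * (N : ℝ) ^ (9 / 10 : ℝ) := by gcongr
        _ = (N : ℝ) ^ (23 / 25 : ℝ) := by rw [← Real.rpow_add hN0]; norm_num
        _ ≤ (N : ℝ) ^ (1 : ℝ) := Real.rpow_le_rpow_of_exponent_le hN1' (by norm_num)
        _ = N := Real.rpow_one _
    exact_mod_cast h1
  · intro h
    exact hmE (mem_filter.2 ⟨mem_range.2 hmX, h⟩)
  · refine Nat.coprime_of_dvd (fun r hr hr1 hr2 => ?_)
    rcases Nat.lt_or_ge H r with hHr | hHr
    · have hrR : r ∈ R := by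
        rw [hR, mem_filter, Nat.mem_primeFactors]
        exact ⟨⟨hr, hr2, by omega⟩, hHr⟩
      apply hmR r hrR
      rw [rhoL_iff hr (by simpa using hr.one_lt.ne') (hQbig r hr hHr)]
      have e : ((1 : ℕ) : ℤ) * ((b + Q * m : ℕ) : ℤ) + (x₀ : ℤ) = ((x₀ + (b + Q * m) : ℕ) : ℤ) := by
        push_cast; ring
      simp only
      rw [e]
      exact_mod_cast hr1
    · have hrd : r ∈ Pd := by
        rw [hPd, mem_filter]
        refine ⟨?_, hr2⟩
        unfold SH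
        rw [mem_filter, mem_range]
        exact ⟨by omega, hr⟩
      have h1 : r ∣ Qd := by
        rw [hQdd]
        exact dvd_prod_of_mem (fun q => q) hrd
      have h3 : x₀ + b ≡ 1 [MOD r] := hb2.of_dvd h1
      have h4 : r ∣ Q * m := (h1.trans (Nat.dvd_mul_left Qd Q0)).mul_right m
      have h5 : r ∣ x₀ + b := by
        have h6 : x₀ + (b + Q * m) = (x₀ + b) + Q * m := by ring
        rw [h6] at hr1
        exact (Nat.dvd_add_left h4).mp hr1
      have h7 : (0 : ℕ) ≡ 1 [MOD r] := ((Nat.modEq_zero_iff_dvd.mpr h5).symm).trans h3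
      have h8 := (Nat.modEq_iff_dvd' (by omega : 0 ≤ 1)).mp h7
      simp at h8
      exact hr.one_lt.ne' h8
  · intro l hl
    have hlp : prim l ∈ Lp := mem_image_of_mem _ hl
    obtain ⟨-, -, -, -, hdv, -⟩ := prim_spec (hL l hl).1
    by_cases hpS : prim l ∈ S
    · obtain ⟨p, hp, hpm⟩ := hm (Encodable.encode (prim l)) (mem_image_of_mem _ hpS)
      rw [hρe] at hpm
      have h1 := (rhoL_iff (PP_prime (hPP hp)) (hPJ p hp _ hlp) (hQp p hp)).mp hpm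
      refine ⟨p, PP_prime (hPP hp), hPD p hp, ?_, hdv _ _ h1⟩
      refine le_trans ?_ hzle
      exact_mod_cast PP_le (hPP hp)
    · have h1 : ∃ p ∈ P0, (p : ℤ) ∣ ((prim l).1 : ℤ) * (b : ℤ) + (prim l).2 := by
        by_contra hcon
        push Not at hcon
        exact hpS (mem_filter.2 ⟨hlp, hcon⟩)
      obtain ⟨p, hp, hpd⟩ := h1
      refine ⟨p, (hP0p p hp).1, (hP0p p hp).2.2, ?_, hdv _ _ ?_⟩
      · refine le_trans ?_ hzle
        exact_mod_cast ((hP0p p hp).2.1.trans hHz)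
      · have hqQ : (p : ℤ) ∣ (Q : ℤ) := by
          have h3 : p ∣ Q0 := by
            rw [hQ0d]
            exact dvd_prod_of_mem (fun q => q) hp
          exact_mod_cast h3.trans (Nat.dvd_mul_right Q0 Qd)
        have e1 : ((prim l).1 : ℤ) * ((b + Q * m : ℕ) : ℤ) + (prim l).2 =
            (((prim l).1 : ℤ) * (b : ℤ) + (prim l).2) + (Q : ℤ) * (((prim l).1 : ℤ) * m) := by
          push_cast; ring
        rw [e1]
        exact dvd_add hpd (hqQ.mul_right _)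

end Pool.Agent.Q20.AS
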