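import Mathlib
import Pool.Agent.Q20.AS.FormsD

/-!
Arbitrary systems of at most `C (φ(D) / D) log X` linear forms at integers prime to `D` in short intervals.
-/

set_option autoImplicit false

open Finset Filter

namespace Pool.Agent.Q20.AS

open Pool.Agent.H410R2.AC

theorem formsD (C δ : ℝ) (K : ℕ) (hδ : 0 < δ) : ∃ X₀ : ℕ, ∀ X : ℕ, X₀ ≤ X →
    ∀ D : ℕ, 1 ≤ D → D ≤ X ^ K →
    ∀ L : Finset (ℕ × ℤ), (∀ l ∈ L, 1 ≤ l.1 ∧ (∀ p : ℕ, p.Prime → p ∣ l.1 → p ∣ D) ∧ l.1 ≤ X ^ K ∧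
      |l.2| ≤ (X : ℤ) ^ K) →
    (L.card : ℝ) * D ≤ C * D.totient * Real.log X → ∀ x : ℕ, x ≤ X ^ K →
    ∀ E : Finset ℕ, (E.card : ℝ) ≤ (X : ℝ) ^ (δ / 4) →
    ∃ n : ℕ, x ≤ n ∧ (n : ℝ) ≤ x + (X : ℝ) ^ δ ∧ Nat.Coprime n D ∧ n ∉ E ∧
      ∀ l ∈ L, ∃ p : ℕ, p.Prime ∧ ¬ p ∣ D ∧ (p : ℝ) ≤ (X : ℝ) ^ δ ∧
        (p : ℤ) ∣ (l.1 : ℤ) * (n : ℤ) + l.2 ∧ (p : ℤ) < |(l.1 : ℤ) * (n : ℤ) + l.2| := by
  classical
  set C1 : ℝ := max C 1 with hC1
  have hC11 : 1 ≤ C1 := le_max_right _ _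
  set Dd : ℕ := ⌈4 / δ⌉₊ with hD
  have hDδ : 4 / δ ≤ Dd := Nat.le_ceil _
  set C2 : ℝ := max (4 * C1 / δ) 1 with hC2
  obtain ⟨N₀, hN₀⟩ := formsN C2 ((2 * K + 1) * Dd) (le_max_right _ _)
  have hδ2 : 0 < δ / 2 := by linarith
  have htend : Tendsto (fun X : ℕ => ⌊(X : ℝ) ^ (δ / 2)⌋₊) atTop atTop :=
    tendsto_nat_floor_atTop.comp ((tendsto_rpow_atTop hδ2).comp tendsto_natCast_atTop_atTop)
  have hev : ∀ᶠ X : ℕ in atTop, N₀ ≤ ⌊(X : ℝ) ^ (δ / 2)⌋₊ ∧ (4 : ℝ) ≤ (X : ℝ) ^ (δ / 4) ∧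
      (2 : ℝ) ≤ (X : ℝ) ^ (δ / 2) ∧ 3 ≤ X ∧
      3 * C1 * Real.log X ≤ (X : ℝ) ^ (δ / 20) ∧ (2 : ℝ) ≤ (X : ℝ) ^ (δ / 50) := by
    filter_upwards [htend.eventually_ge_atTop N₀,
      ((tendsto_rpow_atTop (by linarith : 0 < δ / 4)).comp
        tendsto_natCast_atTop_atTop).eventually_ge_atTop 4,
      ((tendsto_rpow_atTop hδ2).comp tendsto_natCast_atTop_atTop).eventually_ge_atTop 2,
      eventually_ge_atTop 3, log_pow_small 1 (3 * C1) (δ / 20) (by linarith),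
      ((tendsto_rpow_atTop (by linarith : 0 < δ / 50)).comp
        tendsto_natCast_atTop_atTop).eventually_ge_atTop 2]
      with X a1 a2 a3 a4 a5 a6
    rw [pow_one] at a5
    exact ⟨a1, a2, a3, a4, a5, a6⟩
  obtain ⟨X₀, hX₀⟩ := eventually_atTop.mp hev
  refine ⟨X₀, fun X hX D hD1 hDX L hL hLc x hx E hE => ?_⟩
  obtain ⟨hNN, h4, h22, hX3, hlg, h250⟩ := hX₀ X hX
  set N : ℕ := ⌊(X : ℝ) ^ (δ / 2)⌋₊ with hN
  have hX1 : (1 : ℝ) ≤ X := by exact_mod_cast (by omega : 1 ≤ X)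
  have hX0 : (0 : ℝ) < X := by linarith
  have hNle : (N : ℝ) ≤ (X : ℝ) ^ (δ / 2) := Nat.floor_le (by positivity)
  have hdbl : (X : ℝ) ^ (δ / 2) = (X : ℝ) ^ (δ / 4) * (X : ℝ) ^ (δ / 4) := by
    rw [← Real.rpow_add hX0]; congr 1; ring
  have hNge : (X : ℝ) ^ (δ / 4) ≤ N := by
    have h1 : (X : ℝ) ^ (δ / 2) < N + 1 := Nat.lt_floor_add_one _
    nlinarith
  have hN1 : (1 : ℝ) ≤ N := by linarith
  have hNpos : (0 : ℝ) < N := by linarith
  have hlogX : 0 < Real.log (X : ℝ) := Real.log_pos (by exact_mod_cast (by omega : 1 < X))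
  have hlogN : δ / 4 * Real.log X ≤ Real.log N := by
    rw [← Real.log_rpow hX0]
    exact Real.log_le_log (by positivity) hNge
  have hφr : (0 : ℝ) < D.totient := by exact_mod_cast Nat.totient_pos.mpr hD1
  have hDr1 : (D.totient : ℝ) ≤ D := by exact_mod_cast Nat.totient_le D
  have hDr : (0 : ℝ) < D := by exact_mod_cast hD1
  -- X ≤ N ^ Dd
  have hXN : X ≤ N ^ Dd := by
    have h1 : (X : ℝ) ≤ (N : ℝ) ^ Dd := by
      calc (X : ℝ) = ((X : ℝ) ^ (δ / 4)) ^ (4 / δ) := by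
            rw [← Real.rpow_mul hX0.le]
            rw [show δ / 4 * (4 / δ) = 1 by field_simp, Real.rpow_one]
        _ ≤ (N : ℝ) ^ (4 / δ) := Real.rpow_le_rpow (by positivity) hNge (by positivity)
        _ ≤ (N : ℝ) ^ (Dd : ℝ) := Real.rpow_le_rpow_of_exponent_le hN1 hDδ
        _ = (N : ℝ) ^ Dd := Real.rpow_natCast _ _
    exact_mod_cast h1
  have hbig : X ^ (2 * K + 1) ≤ N ^ ((2 * K + 1) * Dd) := by
    rw [mul_comm (2 * K + 1) Dd, pow_mul]
    exact Nat.pow_le_pow_left hXN _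
  have hDN : D ≤ N ^ ((2 * K + 1) * Dd) :=
    (hDX.trans (Nat.pow_le_pow_right (by omega) (by omega))).trans hbig
  -- the forms in t
  set L' : Finset (ℕ × ℤ) := L.image (fun l : ℕ × ℤ => (l.1, (l.1 : ℤ) * (x : ℤ) + l.2)) with hL'
  have hxX : (x : ℤ) ≤ (X : ℤ) ^ K := by exact_mod_cast hx
  have hL'P : ∀ l ∈ L', 1 ≤ l.1 ∧ (∀ p : ℕ, p.Prime → p ∣ l.1 → p ∣ D) ∧
      l.1 ≤ N ^ ((2 * K + 1) * Dd) ∧ |l.2| ≤ (N : ℤ) ^ ((2 * K + 1) * Dd) := by
    intro l' hl'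
    rw [hL', mem_image] at hl'
    obtain ⟨l, hl, rfl⟩ := hl'
    obtain ⟨a1, a4, a2, a3⟩ := hL l hl
    refine ⟨a1, a4, ?_, ?_⟩
    · exact (a2.trans (Nat.pow_le_pow_right (by omega) (by omega))).trans hbig
    · have hXK : (1 : ℤ) ≤ (X : ℤ) ^ K := one_le_pow₀ (by exact_mod_cast (by omega : 1 ≤ X))
      have h1 : |(l.1 : ℤ) * (x : ℤ) + l.2| ≤ (X : ℤ) ^ (2 * K + 1) := by
        calc |(l.1 : ℤ) * (x : ℤ) + l.2| ≤ |(l.1 : ℤ) * (x : ℤ)| + |l.2| := abs_add_le _ _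
          _ ≤ (X : ℤ) ^ K * (X : ℤ) ^ K + (X : ℤ) ^ K := by
              refine add_le_add ?_ a3
              rw [abs_of_nonneg (by positivity)]
              exact mul_le_mul (by exact_mod_cast a2) hxX (by positivity) (by positivity)
          _ ≤ (X : ℤ) ^ K * (X : ℤ) ^ K * 2 := by
              have f2 : (X : ℤ) ^ K ≤ (X : ℤ) ^ K * (X : ℤ) ^ K :=
                le_mul_of_one_le_right (by positivity) hXK
              linarith
          _ ≤ (X : ℤ) ^ K * (X : ℤ) ^ K * X := by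
              refine mul_le_mul_of_nonneg_left ?_ (by positivity)
              exact_mod_cast (by omega : 2 ≤ X)
          _ = (X : ℤ) ^ (2 * K + 1) := by ring
      refine h1.trans ?_
      exact_mod_cast hbig
  have hL'c0 : (L'.card : ℝ) ≤ L.card := by exact_mod_cast card_image_le
  have hL'c : (L'.card : ℝ) * D ≤ C2 * D.totient * Real.log N := by
    have h2 : C * D.totient * Real.log X ≤ C1 * D.totient * Real.log X := by
      have := le_max_left C 1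
      gcongr
    have h3 : C1 * D.totient * Real.log X ≤ (4 * C1 / δ) * D.totient * Real.log N := by
      calc C1 * D.totient * Real.log X = (4 * C1 / δ) * D.totient * (δ / 4 * Real.log X) := by
            field_simp
        _ ≤ (4 * C1 / δ) * D.totient * Real.log N := mul_le_mul_of_nonneg_left hlogN (by positivity)
    have h5 : (4 * C1 / δ) * D.totient * Real.log N ≤ C2 * D.totient * Real.log N := by
      have h6 := Real.log_nonneg hN1
      have := le_max_left (4 * C1 / δ) 1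
      gcongr
    have h7 := mul_le_mul_of_nonneg_right hL'c0 hDr.le
    linarith
  -- the exceptional set
  set M : ℕ := ⌊(N : ℝ) ^ (1 / 10 : ℝ)⌋₊ with hM
  have hMle : (M : ℝ) ≤ (N : ℝ) ^ (1 / 10 : ℝ) := Nat.floor_le (by positivity)
  set E' : Finset ℕ := (range (N + 1)).filter (fun t => x + t ∈ E) ∪
    L'.biUnion (fun l => (range (N + 1)).filter
      (fun t : ℕ => |(l.1 : ℤ) * (t : ℤ) + l.2| ≤ (M : ℤ))) with hE'
  have hE'c : (E'.card : ℝ) ≤ (N : ℝ) ^ (3 / 5 : ℝ) := by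
    have h1 : ((range (N + 1)).filter (fun t => x + t ∈ E)).card ≤ E.card := by
      refine card_le_card_of_injOn (fun t => x + t) (fun t ht => (mem_filter.1 ht).2) ?_
      intro t _ t' _ h
      simp only at h
      omega
    have h2 : (L'.biUnion (fun l => (range (N + 1)).filter
        (fun t : ℕ => |(l.1 : ℤ) * (t : ℤ) + l.2| ≤ (M : ℤ)))).card ≤ L.card * (2 * M + 1) := by
      refine (card_biUnion_le_card_mul _ _ (2 * M + 1)
        (fun l hl => few_small _ _ (hL'P l hl).1 M N)).trans ?_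
      exact Nat.mul_le_mul_right _ card_image_le
    have h3 : (E'.card : ℝ) ≤ E.card + L.card * (2 * M + 1) := by
      have h5 : E'.card ≤ E.card + L.card * (2 * M + 1) :=
        (card_union_le _ _).trans (add_le_add h1 h2)
      exact_mod_cast h5
    -- sizes
    have hNsmall : (N : ℝ) ^ (1 / 10 : ℝ) ≤ (X : ℝ) ^ (δ / 20) := by
      calc (N : ℝ) ^ (1 / 10 : ℝ) ≤ ((X : ℝ) ^ (δ / 2)) ^ (1 / 10 : ℝ) :=
            Real.rpow_le_rpow hNpos.le hNle (by norm_num)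
        _ = (X : ℝ) ^ (δ / 20) := by
            rw [← Real.rpow_mul hX0.le]; congr 1; ring
    have hX220 : (2 : ℝ) ≤ (X : ℝ) ^ (δ / 20) :=
      h250.trans (Real.rpow_le_rpow_of_exponent_le hX1 (by linarith))
    have hX20 : 1 ≤ (X : ℝ) ^ (δ / 20) := by linarith
    have hLr : (L.card : ℝ) ≤ C1 * Real.log X := by
      have h5 : C * D.totient * Real.log X ≤ C1 * D * Real.log X := by
        calc C * D.totient * Real.log X ≤ C1 * D.totient * Real.log X := by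
              have := le_max_left C 1
              gcongr
          _ ≤ C1 * D * Real.log X := by gcongr
      have h6 : (L.card : ℝ) * D ≤ (C1 * Real.log X) * D := by linarith
      exact le_of_mul_le_mul_right h6 hDr
    have h6 : (L.card : ℝ) * (2 * M + 1) ≤ (X : ℝ) ^ (δ / 20) * (X : ℝ) ^ (δ / 20) := by
      calc (L.card : ℝ) * (2 * M + 1) ≤ (C1 * Real.log X) * (3 * (X : ℝ) ^ (δ / 20)) := by
            gcongr
            linarith [hMle.trans hNsmall]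
        _ = (3 * C1 * Real.log X) * (X : ℝ) ^ (δ / 20) := by ring
        _ ≤ _ := by gcongr
    have h7 : (X : ℝ) ^ (δ / 20) * (X : ℝ) ^ (δ / 20) ≤ (X : ℝ) ^ (δ / 4) := by
      rw [← Real.rpow_add hX0]
      exact Real.rpow_le_rpow_of_exponent_le hX1 (by linarith)
    have h8 : 2 * (X : ℝ) ^ (δ / 4) ≤ (N : ℝ) ^ (3 / 5 : ℝ) := by
      have h9 : (X : ℝ) ^ (δ / 2) / 2 ≤ N := by
        have h1 : (X : ℝ) ^ (δ / 2) < N + 1 := Nat.lt_floor_add_one _
        nlinarith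
      have h10 : 2 * (X : ℝ) ^ (9 * δ / 20) ≤ (X : ℝ) ^ (δ / 2) := by
        have : (X : ℝ) ^ (δ / 2) = (X : ℝ) ^ (δ / 20) * (X : ℝ) ^ (9 * δ / 20) := by
          rw [← Real.rpow_add hX0]; congr 1; ring
        rw [this]
        have h11 : 0 ≤ (X : ℝ) ^ (9 * δ / 20) := by positivity
        nlinarith
      have h12 : (X : ℝ) ^ (9 * δ / 20) ≤ N := by linarith
      calc 2 * (X : ℝ) ^ (δ / 4) ≤ (X : ℝ) ^ (δ / 50) * (X : ℝ) ^ (δ / 4) := by
            gcongr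
        _ = (X : ℝ) ^ (27 * δ / 100) := by rw [← Real.rpow_add hX0]; congr 1; ring
        _ = ((X : ℝ) ^ (9 * δ / 20)) ^ (3 / 5 : ℝ) := by
            rw [← Real.rpow_mul hX0.le]; congr 1; ring
        _ ≤ (N : ℝ) ^ (3 / 5 : ℝ) := Real.rpow_le_rpow (by positivity) h12 (by norm_num)
    linarith
  obtain ⟨t, htN, htE, htc, ht⟩ := hN₀ N hNN D x hD1 hDN L' hL'P hL'c E' hE'c
  refine ⟨x + t, by omega, ?_, htc, ?_, ?_⟩
  · have h1 : ((x + t : ℕ) : ℝ) ≤ x + N := by exact_mod_cast (by omega : x + t ≤ x + N)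
    refine h1.trans ?_
    have h3 : (N : ℝ) ≤ (X : ℝ) ^ δ :=
      hNle.trans (Real.rpow_le_rpow_of_exponent_le hX1 (by linarith))
    linarith
  · intro h
    apply htE
    rw [hE', mem_union]
    left
    exact mem_filter.2 ⟨mem_range.2 (by omega), h⟩
  · intro l hl
    obtain ⟨p, hp, hpD, hpN, hpd⟩ := ht _ (mem_image_of_mem (fun l : ℕ × ℤ =>
      (l.1, (l.1 : ℤ) * (x : ℤ) + l.2)) hl)
    simp only at hpd
    have e1 : (l.1 : ℤ) * (t : ℤ) + ((l.1 : ℤ) * (x : ℤ) + l.2) =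
        (l.1 : ℤ) * ((x + t : ℕ) : ℤ) + l.2 := by push_cast; ring
    rw [e1] at hpd
    refine ⟨p, hp, hpD, ?_, hpd, ?_⟩
    · refine hpN.trans ?_
      calc (N : ℝ) ^ (1 / 10 : ℝ) ≤ (N : ℝ) ^ (1 : ℝ) :=
            Real.rpow_le_rpow_of_exponent_le hN1 (by norm_num)
        _ = N := Real.rpow_one _
        _ ≤ (X : ℝ) ^ (δ / 2) := hNle
        _ ≤ (X : ℝ) ^ δ := Real.rpow_le_rpow_of_exponent_le hX1 (by linarith)
    · have h1 : t ∉ L'.biUnion (fun l => (range (N + 1)).filter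
          (fun t : ℕ => |(l.1 : ℤ) * (t : ℤ) + l.2| ≤ (M : ℤ))) := by
        intro h
        exact htE (by rw [hE', mem_union]; exact Or.inr h)
      rw [mem_biUnion] at h1
      push Not at h1
      have h2 := h1 _ (mem_image_of_mem (fun l : ℕ × ℤ =>
        (l.1, (l.1 : ℤ) * (x : ℤ) + l.2)) hl)
      rw [mem_filter] at h2
      push Not at h2
      have h3 := h2 (mem_range.2 (by omega))
      simp only at h3
      rw [e1] at h3
      have h4 : p ≤ M := Nat.le_floor hpN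
      have h5 : (p : ℤ) ≤ M := by exact_mod_cast h4
      omega

end Pool.Agent.Q20.AS
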