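import Mathlib
import Pool.Agent.Q20.AS.MainD

/-!
Arbitrary systems of slowly moving real positions: some `x` in a short interval and in a given residue class has no prime
near any of the points `x + g θ x`.
-/

set_option autoImplicit false

open Finset Filter

namespace Pool.Agent.Q20.AS

theorem moving (C δ R : ℝ) (K : ℕ) (hδ : 0 < δ) (hR : 0 ≤ R) : ∀ᶠ y : ℕ in atTop, ∀ D r : ℕ, 1 ≤ D →
    D ≤ y ^ K → ∀ (Θ : Finset ℝ) (g : ℝ → ℕ → ℝ),
    (Θ.card : ℝ) ≤ C * ((D.totient : ℝ) / D) * Real.log y → (∀ θ ∈ Θ, |g θ y| ≤ (y : ℝ) ^ K) →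
    (∀ θ ∈ Θ, ∀ x : ℕ, y ≤ x → (x : ℝ) ≤ y + D * ((y : ℝ) ^ δ + 2) → |g θ x - g θ y| ≤ R) →
    ∃ x : ℕ, y ≤ x ∧ (x : ℝ) ≤ y + D * ((y : ℝ) ^ δ + 2) ∧ x ≡ r [MOD D] ∧
      ∀ θ ∈ Θ, ∀ p : ℕ, p.Prime → R < |(p : ℝ) - (x + g θ x)| := by
  classical
  obtain ⟨m, hm⟩ : ∃ m : ℕ, 2 * R + 1 ≤ m := exists_nat_ge _
  obtain ⟨X₀, hX₀⟩ := formsD (max C 0 * (2 * m + 1)) δ (K + 2) hδ
  filter_upwards [eventually_ge_atTop X₀, eventually_ge_atTop (m + 4)] with y hy hym D r hD1 hDK Θ g hΘ hg hgx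
  have hy4 : 4 ≤ y := by omega
  have hy0 : (0 : ℝ) < y := by exact_mod_cast (by omega : 0 < y)
  have hyZ : (4 : ℤ) ≤ y := by exact_mod_cast hy4
  have hymZ : (m : ℤ) + 4 ≤ y := by exact_mod_cast hym
  have hD0 : (0 : ℝ) < D := by exact_mod_cast hD1
  have hlog : 0 ≤ Real.log (y : ℝ) := Real.log_natCast_nonneg y
  have hyK : (1 : ℤ) ≤ (y : ℤ) ^ K := one_le_pow₀ (by linarith)
  obtain ⟨J, hJ⟩ : ∃ J : Finset ℤ, J = Finset.Icc (-(m : ℤ)) m := ⟨_, rfl⟩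
  have hJc : J.card = 2 * m + 1 := by
    rw [hJ, Int.card_Icc]
    omega
  obtain ⟨L, hL⟩ : ∃ L : Finset (ℕ × ℤ), L = (Θ ×ˢ J).image
    (fun s : ℝ × ℤ => (D, (((r % D : ℕ) : ℤ) + (⌊g s.1 y⌋ + s.2)))) := ⟨_, rfl⟩
  have hr : (((r % D : ℕ)) : ℤ) < D := by exact_mod_cast Nat.mod_lt r hD1
  have hr0 : (0 : ℤ) ≤ ((r % D : ℕ) : ℤ) := by positivity
  have hDZ : (D : ℤ) ≤ (y : ℤ) ^ K := by exact_mod_cast hDK
  have hA : ∀ l ∈ L, 1 ≤ l.1 ∧ (∀ p : ℕ, p.Prime → p ∣ l.1 → p ∣ D) ∧ l.1 ≤ y ^ (K + 2) ∧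
      |l.2| ≤ (y : ℤ) ^ (K + 2) := by
    intro l hl
    rw [hL, mem_image] at hl
    obtain ⟨s, hs, rfl⟩ := hl
    rw [mem_product, hJ, Finset.mem_Icc] at hs
    refine ⟨hD1, fun p _ h => h, hDK.trans (Nat.pow_le_pow_right (by omega) (by omega)), ?_⟩
    simp only
    have h1 := hg s.1 hs.1
    rw [abs_le] at h1
    have h2 : (⌊g s.1 y⌋ : ℤ) ≤ (y : ℤ) ^ K := by
      have h3 : ((⌊g s.1 y⌋ : ℤ) : ℝ) ≤ (((y : ℤ) ^ K : ℤ) : ℝ) := by
        push_cast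
        exact (Int.floor_le _).trans h1.2
      exact_mod_cast h3
    have h3 : -((y : ℤ) ^ K) ≤ ⌊g s.1 y⌋ := by
      rw [Int.le_floor]
      push_cast
      exact h1.1
    have h5 : (y : ℤ) ^ (K + 2) = (y : ℤ) ^ K * ((y : ℤ) * y) := by ring
    have h6 : (16 : ℤ) ≤ (y : ℤ) * y := by nlinarith
    have h7 : (y : ℤ) ^ K * 3 + y ≤ (y : ℤ) ^ K * ((y : ℤ) * y) := by
      have h8 : (y : ℤ) ≤ (y : ℤ) ^ K * y := le_mul_of_one_le_left (by linarith) hyK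
      have h9 : (3 : ℤ) + y ≤ y * y := by nlinarith
      have h10 := mul_le_mul_of_nonneg_left h9 (by linarith : (0 : ℤ) ≤ (y : ℤ) ^ K)
      linarith
    rw [h5, abs_le]
    constructor <;> linarith [hs.2.1, hs.2.2]
  have hB : (L.card : ℝ) * D ≤ (max C 0 * (2 * m + 1)) * D.totient * Real.log y := by
    have h1 : (L.card : ℝ) ≤ Θ.card * (2 * m + 1) := by
      have h2 : L.card ≤ Θ.card * (2 * m + 1) := by
        rw [hL]
        refine card_image_le.trans ?_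
        rw [card_product, hJc]
      exact_mod_cast h2
    calc (L.card : ℝ) * D ≤ (Θ.card * (2 * m + 1)) * D := mul_le_mul_of_nonneg_right h1 hD0.le
      _ ≤ ((max C 0 * ((D.totient : ℝ) / D) * Real.log y) * (2 * m + 1)) * D := by
          have h3 : C * ((D.totient : ℝ) / D) * Real.log y ≤ max C 0 * ((D.totient : ℝ) / D) * Real.log y := by
            have := le_max_left C 0
            gcongr
          have h4 := hΘ.trans h3
          gcongr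
      _ = _ := by field_simp
  have hy1 : y / D + 1 ≤ y ^ (K + 2) := by
    have h1 : y / D ≤ y := Nat.div_le_self y D
    have h2 : y * y ≤ y ^ (K + 2) := by
      rw [← sq]
      exact Nat.pow_le_pow_right (by omega) (by omega)
    nlinarith
  obtain ⟨t, ht1, ht2, -, -, ht3⟩ := hX₀ y hy D hD1 (hDK.trans (Nat.pow_le_pow_right (by omega) (by omega)))
    L hA hB (y / D + 1) hy1 ∅ (by rw [card_empty, Nat.cast_zero]; positivity)
  have hlow : y ≤ r % D + D * t := by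
    have h1 : y < D * (y / D + 1) := Nat.lt_mul_div_succ y hD1
    have h2 : D * (y / D + 1) ≤ D * t := Nat.mul_le_mul_left D ht1
    omega
  have hup : ((r % D + D * t : ℕ) : ℝ) ≤ y + D * ((y : ℝ) ^ δ + 2) := by
    have h1 : ((y / D : ℕ) : ℝ) ≤ (y : ℝ) / D := Nat.cast_div_le
    have h2 : ((r % D : ℕ) : ℝ) ≤ D := by exact_mod_cast (Nat.mod_lt r hD1).le
    push_cast at ht2 ⊢
    have h3 : (D : ℝ) * t ≤ D * ((y : ℝ) / D + 1 + (y : ℝ) ^ δ) := by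
      refine mul_le_mul_of_nonneg_left ?_ hD0.le
      linarith
    have h4 : (D : ℝ) * ((y : ℝ) / D + 1 + (y : ℝ) ^ δ) = y + D * (1 + (y : ℝ) ^ δ) := by
      have h6 : (D : ℝ) * ((y : ℝ) / D) = y := mul_div_cancel₀ _ hD0.ne'
      calc (D : ℝ) * ((y : ℝ) / D + 1 + (y : ℝ) ^ δ)
          = D * ((y : ℝ) / D) + D * (1 + (y : ℝ) ^ δ) := by ring
        _ = _ := by rw [h6]
    have h5 : ((r % D : ℕ) : ℝ) + D * t ≤ D + (y + D * (1 + (y : ℝ) ^ δ)) := by linarith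
    refine h5.trans (le_of_eq ?_)
    ring
  refine ⟨r % D + D * t, hlow, hup, ?_, ?_⟩
  · have h1 : r % D + D * t ≡ r % D + 0 [MOD D] := Nat.ModEq.add_left _ (by
      rw [Nat.modEq_zero_iff_dvd]; exact Nat.dvd_mul_right D t)
    exact h1.trans (by simpa using Nat.mod_modEq r D)
  · intro θ hθ p hp
    by_contra hcon
    push Not at hcon
    have hx := hgx θ hθ (r % D + D * t) hlow hup
    rw [abs_le] at hcon hx
    obtain ⟨x, hxd⟩ : ∃ x : ℕ, x = r % D + D * t := ⟨_, rfl⟩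
    rw [← hxd] at hcon hx
    set j : ℤ := (p : ℤ) - x - ⌊g θ y⌋ with hj
    have hf1 := Int.floor_le (g θ y)
    have hf2 := Int.lt_floor_add_one (g θ y)
    have hjm : j ∈ J := by
      rw [hJ, Finset.mem_Icc]
      have h1 : (j : ℝ) = (p : ℝ) - x - ⌊g θ y⌋ := by rw [hj]; push_cast; ring
      constructor
      · have : (-(m : ℝ)) ≤ j := by rw [h1]; linarith
        exact_mod_cast this
      · have : (j : ℝ) ≤ m := by rw [h1]; linarith
        exact_mod_cast this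
    obtain ⟨q, hq, -, -, hqd, hql⟩ := ht3 (D, ((r % D : ℕ) : ℤ) + (⌊g θ y⌋ + j)) (by
      rw [hL, mem_image]
      exact ⟨(θ, j), mem_product.2 ⟨hθ, hjm⟩, rfl⟩)
    simp only at hqd hql
    have e : (D : ℤ) * (t : ℤ) + (((r % D : ℕ) : ℤ) + (⌊g θ y⌋ + j)) = (p : ℤ) := by
      have h1 : (x : ℤ) = ((r % D : ℕ) : ℤ) + D * t := by rw [hxd]; push_cast; ring
      rw [hj, h1]
      ring
    rw [e] at hqd hql
    rw [abs_of_nonneg (by positivity)] at hql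
    have h8 : q ∣ p := by exact_mod_cast hqd
    have h9 : q < p := by exact_mod_cast hql
    rcases (Nat.dvd_prime hp).mp h8 with h | h
    · exact hq.one_lt.ne' h
    · omega

end Pool.Agent.Q20.AS
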