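import Mathlib
import Pool.Agent.Q20.AS.Main

/-!
Even numbers `N` such that no prime `p` near `c (j N) ^ (1/k)` makes `j N - p` prime.
-/

set_option autoImplicit false

open Finset Filter

namespace Pool.Agent.Q20.AS

open Pool.Agent.H410R2.AC

lemma pi_le_four : ∃ M₀ : ℕ, ∀ M : ℕ, M₀ ≤ M → (Nat.primeCounting M : ℝ) ≤ 4 * (M / Real.log M) := by
  have h1 : ∀ᶠ M : ℕ in atTop, 1 * Real.log M ^ 1 ≤ (M : ℝ) ^ (1 / 2 : ℝ) := log_pow_small 1 1 _ (by norm_num)
  obtain ⟨M₀, hM₀⟩ := eventually_atTop.mp (h1.and (eventually_ge_atTop 3))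
  refine ⟨M₀, fun M hM => ?_⟩
  obtain ⟨h2, h3⟩ := hM₀ M hM
  have hM1 : (1 : ℝ) < M := by exact_mod_cast (by omega : 1 < M)
  have hM0 : (0 : ℝ) < M := by linarith
  have hl : 0 < Real.log (M : ℝ) := Real.log_pos hM1
  have h4 := Chebyshev.pi_le_log4_mul_div hM1
  rw [Nat.floor_natCast] at h4
  have h5 : Real.log √(M : ℝ) = Real.log M / 2 := Real.log_sqrt hM0.le
  rw [h5] at h4
  have h6 : √(M : ℝ) ≤ M / Real.log M := by
    rw [le_div_iff₀ hl]
    rw [one_mul, pow_one, ← Real.sqrt_eq_rpow] at h2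
    calc √(M : ℝ) * Real.log M ≤ √(M : ℝ) * √(M : ℝ) := by gcongr
      _ = M := Real.mul_self_sqrt hM0.le
  have h7 : Real.log 4 ≤ 3 / 2 := by
    have h8 : (4 : ℝ) = 2 ^ 2 := by norm_num
    rw [h8, Real.log_pow]
    have := Real.log_two_lt_d9
    push_cast
    linarith
  have h9 : Real.log 4 * M / (Real.log M / 2) = (2 * Real.log 4) * (M / Real.log M) := by
    field_simp
  rw [h9] at h4
  have h10 : 0 < (M : ℝ) / Real.log M := by positivity
  nlinarith

/-- few `Y` with `|p - λ Y| ≤ h` -/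
lemma few_Y (lam h : ℝ) (hlam : 0 < lam) (hh : 0 ≤ h) (p : ℝ) (S : Finset ℕ) :
    ((S.filter (fun Y : ℕ => |p - lam * Y| ≤ h)).card : ℝ) ≤ 2 * h / lam + 1 := by
  classical
  set F := S.filter (fun Y : ℕ => |p - lam * Y| ≤ h) with hF
  rcases F.eq_empty_or_nonempty with he | hne
  · rw [he, card_empty, Nat.cast_zero]
    positivity
  set a := F.min' hne with ha
  set b := F.max' hne with hb
  have hab : F ⊆ Finset.Icc a b := fun x hx => Finset.mem_Icc.2 ⟨F.min'_le x hx, F.le_max' x hx⟩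
  have h1 : F.card ≤ b + 1 - a := by
    have := card_le_card hab
    rwa [Nat.card_Icc] at this
  have haF := (mem_filter.1 (F.min'_mem hne)).2
  have hbF := (mem_filter.1 (F.max'_mem hne)).2
  have hle : a ≤ b := F.min'_le _ (F.max'_mem hne)
  rw [← ha] at haF
  rw [← hb] at hbF
  rw [abs_le] at haF hbF
  have h2 : lam * ((b : ℝ) - a) ≤ 2 * h := by
    have := haF.1
    have := haF.2
    have := hbF.1
    have := hbF.2
    linarith
  have h3 : (b : ℝ) - a ≤ 2 * h / lam := by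
    rw [le_div_iff₀ hlam]
    linarith
  have h4 : (F.card : ℝ) ≤ (b : ℝ) + 1 - a := by
    have h5 : F.card + a ≤ b + 1 := by omega
    have h6 : ((F.card + a : ℕ) : ℝ) ≤ ((b + 1 : ℕ) : ℝ) := by exact_mod_cast h5
    push_cast at h6
    linarith
  linarith

/-- the primes `p ≤ M` within `h` of one of the numbers `λ Y` -/
noncomputable def nearP (Λ : Finset ℝ) (h : ℝ) (M Y : ℕ) : Finset ℕ :=
  open Classical in
  Λ.biUnion (fun lam => ((range (M + 1)).filter Nat.Prime).filter (fun p : ℕ => |(p : ℝ) - lam * Y| ≤ h))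

lemma exists_Y (Λ : Finset ℝ) (hΛ : ∀ lam ∈ Λ, 0 < lam) (C : ℝ) (hC : 1 ≤ C) (D : ℕ) (hD : 1 ≤ D) :
    ∃ (c : ℝ) (T₀ : ℕ), 0 < c ∧ ∀ T : ℕ, T₀ ≤ T → ∃ Y : ℕ, T ≤ Y ∧ Y < 2 * T ∧
      ((nearP Λ (C * Real.log T ^ 2) (D * T) Y).card : ℝ) ≤ c * Real.log T := by
  classical
  obtain ⟨M₀, hM₀⟩ := pi_le_four
  set G : ℝ := ∑ lam ∈ Λ, (2 * C / lam + 1) with hG
  have hG0 : 0 ≤ G := sum_nonneg (fun lam hl => by have := hΛ lam hl; positivity)
  refine ⟨4 * D * G + 1, M₀ + 3, by positivity, fun T hT => ?_⟩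
  have hT1 : (1 : ℝ) < T := by exact_mod_cast (by omega : 1 < T)
  have hT0 : (0 : ℝ) < T := by linarith
  have hlog1 : 1 ≤ Real.log (T : ℝ) := by
    have h3 : (3 : ℝ) ≤ T := by exact_mod_cast (by omega : 3 ≤ T)
    have h2 : Real.exp 1 ≤ T := by
      have := Real.exp_one_lt_d9
      linarith
    calc (1 : ℝ) = Real.log (Real.exp 1) := (Real.log_exp 1).symm
      _ ≤ Real.log T := Real.log_le_log (Real.exp_pos 1) h2
  set h : ℝ := C * Real.log T ^ 2 with hh
  have hh0 : 0 ≤ h := by positivity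
  have hh1 : 1 ≤ h := by
    rw [hh]
    exact one_le_mul_of_one_le_of_one_le hC (one_le_pow₀ hlog1)
  -- the sum over Y
  have hsum : ∑ Y ∈ Ico T (2 * T), ((nearP Λ h (D * T) Y).card : ℝ) ≤
      (T : ℝ) * ((4 * D * G) * Real.log T) := by
    have h1 : ∀ Y ∈ Ico T (2 * T), ((nearP Λ h (D * T) Y).card : ℝ) ≤
        ∑ lam ∈ Λ, ∑ p ∈ (range (D * T + 1)).filter Nat.Prime, (if |(p : ℝ) - lam * Y| ≤ h then (1 : ℝ) else 0) := by
      intro Y _
      have h2 : (nearP Λ h (D * T) Y).card ≤ ∑ lam ∈ Λ,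
          (((range (D * T + 1)).filter Nat.Prime).filter (fun p : ℕ => |(p : ℝ) - lam * Y| ≤ h)).card :=
        card_biUnion_le
      calc ((nearP Λ h (D * T) Y).card : ℝ) ≤ ((∑ lam ∈ Λ,
          (((range (D * T + 1)).filter Nat.Prime).filter (fun p : ℕ => |(p : ℝ) - lam * Y| ≤ h)).card : ℕ) : ℝ) := by
            exact_mod_cast h2
        _ = _ := by
            push_cast
            refine sum_congr rfl (fun lam _ => ?_)
            rw [card_filter]
            push_cast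
            rfl
    refine (sum_le_sum h1).trans ?_
    rw [sum_comm]
    have h3 : ∀ lam ∈ Λ, ∑ Y ∈ Ico T (2 * T), ∑ p ∈ (range (D * T + 1)).filter Nat.Prime,
        (if |(p : ℝ) - lam * Y| ≤ h then (1 : ℝ) else 0) ≤
        (T : ℝ) * ((4 * D * (2 * C / lam + 1)) * Real.log T) := by
      intro lam hlam
      have hl0 := hΛ lam hlam
      rw [sum_comm]
      have h4 : ∀ p ∈ (range (D * T + 1)).filter Nat.Prime, ∑ Y ∈ Ico T (2 * T),
          (if |(p : ℝ) - lam * Y| ≤ h then (1 : ℝ) else 0) ≤ (2 * C / lam + 1) * Real.log T ^ 2 := by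
        intro p _
        have h5 := few_Y lam h hl0 hh0 (p : ℝ) (Ico T (2 * T))
        rw [card_filter] at h5
        push_cast at h5
        refine h5.trans ?_
        have h6 : 2 * h / lam = (2 * C / lam) * Real.log T ^ 2 := by rw [hh]; ring
        rw [h6]
        have h7 : 1 ≤ Real.log (T : ℝ) ^ 2 := one_le_pow₀ hlog1
        linarith
      refine (sum_le_card_nsmul _ _ _ h4).trans ?_
      rw [nsmul_eq_mul]
      have h8 : (((range (D * T + 1)).filter Nat.Prime).card : ℝ) ≤ 4 * D * (T / Real.log T) := by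
        have h9 : ((range (D * T + 1)).filter Nat.Prime).card = Nat.primeCounting (D * T) := by
          rw [Nat.primeCounting, Nat.primeCounting', Nat.count_eq_card_filter_range]
        rw [h9]
        have hDT : T ≤ D * T := Nat.le_mul_of_pos_left T hD
        refine (hM₀ (D * T) (by omega)).trans ?_
        have h10 : Real.log T ≤ Real.log ((D * T : ℕ) : ℝ) :=
          Real.log_le_log hT0 (by exact_mod_cast hDT)
        push_cast
        push_cast at h10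
        calc 4 * ((D : ℝ) * T / Real.log (D * T)) ≤ 4 * ((D : ℝ) * T / Real.log T) := by
              gcongr
          _ = 4 * D * (T / Real.log T) := by ring
      have h11 : 0 ≤ (2 * C / lam + 1) * Real.log (T : ℝ) ^ 2 := by positivity
      calc (((range (D * T + 1)).filter Nat.Prime).card : ℝ) * ((2 * C / lam + 1) * Real.log T ^ 2)
          ≤ (4 * D * (T / Real.log T)) * ((2 * C / lam + 1) * Real.log T ^ 2) :=
            mul_le_mul_of_nonneg_right h8 h11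
        _ = (T : ℝ) * ((4 * D * (2 * C / lam + 1)) * Real.log T) := by
            field_simp
    refine (sum_le_sum h3).trans_eq ?_
    rw [← mul_sum, ← sum_mul, ← mul_sum]
  by_contra hcon
  push Not at hcon
  have h12 : ∑ Y ∈ Ico T (2 * T), (4 * D * G + 1) * Real.log T <
      ∑ Y ∈ Ico T (2 * T), ((nearP Λ h (D * T) Y).card : ℝ) := by
    refine sum_lt_sum_of_nonempty ⟨T, mem_Ico.2 ⟨le_rfl, by omega⟩⟩ (fun Y hY => ?_)
    rw [mem_Ico] at hY
    exact hcon Y hY.1 hY.2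
  rw [sum_const, Nat.card_Ico, nsmul_eq_mul] at h12
  have h13 : ((2 * T - T : ℕ) : ℝ) = T := by
    rw [Nat.cast_sub (by omega)]; push_cast; ring
  rw [h13] at h12
  have h14 : (T : ℝ) * ((4 * D * G) * Real.log T) < (T : ℝ) * ((4 * D * G + 1) * Real.log T) := by
    apply mul_lt_mul_of_pos_left _ hT0
    apply mul_lt_mul_of_pos_right _ (by linarith)
    linarith
  linarith

theorem nearRoots (k J : ℕ) (hk : 2 ≤ k) (Γ : Finset ℝ) (hΓ : ∀ c ∈ Γ, 0 < c) (C : ℝ) :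
    ∃ T₀ : ℕ, ∀ T : ℕ, T₀ ≤ T → ∃ N : ℕ, Even N ∧ T ^ k ≤ N ∧ N ≤ (2 * T) ^ k ∧
      ∀ j : ℕ, 1 ≤ j → j ≤ J → ∀ c ∈ Γ, ∀ p : ℕ, p.Prime →
        |(p : ℝ) - c * ((j * N : ℕ) : ℝ) ^ (1 / (k : ℝ))| ≤ C * Real.log N ^ 2 → ¬ (j * N - p).Prime := by
  classical
  set Λ : Finset ℝ := (Γ ×ˢ Icc 1 J).image (fun t : ℝ × ℕ => t.1 * (t.2 : ℝ) ^ (1 / (k : ℝ))) with hΛd
  have hk0 : (0 : ℝ) < k := by exact_mod_cast (by omega : 0 < k)
  have hΛ : ∀ lam ∈ Λ, 0 < lam := by
    intro lam hl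
    rw [hΛd, mem_image] at hl
    obtain ⟨⟨c, j⟩, hcj, rfl⟩ := hl
    rw [mem_product, mem_Icc] at hcj
    have h1 := hΓ c hcj.1
    have h2 : (0 : ℝ) < (j : ℝ) := by exact_mod_cast hcj.2.1
    positivity
  set G : ℝ := ∑ lam ∈ Λ, lam with hG
  have hG0 : 0 ≤ G := sum_nonneg (fun lam hl => (hΛ lam hl).le)
  have hGle : ∀ lam ∈ Λ, lam ≤ G := fun lam hl =>
    single_le_sum (f := fun x : ℝ => x) (fun x hx => (hΛ x hx).le) hl
  set C1 : ℝ := max C 0 * (4 * k ^ 2) + G + 1 with hC1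
  have hC11 : 1 ≤ C1 := by
    have : 0 ≤ max C 0 * (4 * (k : ℝ) ^ 2) := mul_nonneg (le_max_right _ _) (by positivity)
    linarith
  set D : ℕ := ⌈2 * G⌉₊ + 1 with hD
  obtain ⟨c', T₁, hc', hT₁⟩ := exists_Y Λ hΛ C1 hC11 D (by omega)
  obtain ⟨T₂, hT₂⟩ := forms ((J : ℝ) * c') (1 / 2) (J + 2) (k + 1) (by norm_num) (by omega)
  obtain ⟨T₃, hT₃⟩ := eventually_atTop.mp (log_pow_small 2 C1 1 one_pos)
  refine ⟨T₁ + T₂ + T₃ + D + J + 2 ^ k + 3, fun T hT => ?_⟩
  have h2k : 0 < 2 ^ k := by positivity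
  have hT1 : (1 : ℝ) ≤ T := by exact_mod_cast (by omega : 1 ≤ T)
  have hT0 : (0 : ℝ) < T := by linarith
  obtain ⟨Y, hY1, hY2, hYc⟩ := hT₁ T (by omega)
  set h : ℝ := C1 * Real.log T ^ 2 with hh
  set A : Finset ℕ := nearP Λ h (D * T) Y with hA
  have hAle : ∀ p ∈ A, p ≤ D * T := by
    intro p hp
    rw [hA] at hp
    unfold nearP at hp
    rw [mem_biUnion] at hp
    obtain ⟨lam, -, hp⟩ := hp
    rw [mem_filter, mem_filter, mem_range] at hp
    omega
  set L : Finset (ℕ × ℤ) := (Icc 1 J ×ˢ A).image (fun t : ℕ × ℕ => (t.1, -(t.2 : ℤ))) with hL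
  have hTT : T ≤ T ^ (k + 1) := by
    calc T = T ^ 1 := (pow_one T).symm
      _ ≤ T ^ (k + 1) := Nat.pow_le_pow_right (by omega) (by omega)
  have hLP : ∀ l ∈ L, 1 ≤ l.1 ∧ (∀ p : ℕ, p.Prime → p ∣ l.1 → p ≤ J + 2) ∧ l.1 ≤ T ^ (k + 1) ∧
      |l.2| ≤ (T : ℤ) ^ (k + 1) := by
    intro l hl
    rw [hL, mem_image] at hl
    obtain ⟨⟨j, p⟩, hjp, rfl⟩ := hl
    rw [mem_product, mem_Icc] at hjp
    simp only at hjp
    refine ⟨hjp.1.1, ?_, (by omega : j ≤ T).trans hTT, ?_⟩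
    · intro r _ hr
      have := Nat.le_of_dvd (by simp only; omega) hr
      simp only at this
      omega
    · simp only [abs_neg, Nat.abs_cast]
      have h1 : p ≤ T ^ (k + 1) := by
        calc p ≤ D * T := hAle p hjp.2
          _ ≤ T * T := Nat.mul_le_mul_right _ (by omega)
          _ = T ^ 2 := (sq T).symm
          _ ≤ T ^ (k + 1) := Nat.pow_le_pow_right (by omega) (by omega)
      exact_mod_cast h1
  have hLc : (L.card : ℝ) ≤ (J : ℝ) * c' * Real.log T := by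
    have h1 : L.card ≤ J * A.card := by
      refine card_image_le.trans ?_
      rw [card_product, Nat.card_Icc, Nat.add_sub_cancel]
    have h2 : (L.card : ℝ) ≤ J * A.card := by exact_mod_cast h1
    have h3 : (J : ℝ) * A.card ≤ J * (c' * Real.log T) := mul_le_mul_of_nonneg_left hYc (Nat.cast_nonneg J)
    linarith
  have hYk : Y ^ k ≤ T ^ (k + 1) := by
    calc Y ^ k ≤ (2 * T) ^ k := Nat.pow_le_pow_left hY2.le k
      _ = 2 ^ k * T ^ k := mul_pow 2 T k
      _ ≤ T * T ^ k := Nat.mul_le_mul_right _ (by omega)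
      _ = T ^ (k + 1) := (pow_succ' T k).symm
  obtain ⟨N, hN1, hN2, hN3, -, hN4⟩ := hT₂ T (by omega) L hLP hLc (Y ^ k) 2 0 hYk (by omega) (by omega) ∅
    (by rw [card_empty, Nat.cast_zero]; positivity)
  have hev : Even N := by
    rw [even_iff_two_dvd]
    exact (Nat.modEq_zero_iff_dvd).1 hN3
  -- `N ≤ (Y + 1) ^ k`
  have hNY : N ≤ (Y + 1) ^ k := by
    have h1 : (T : ℝ) ^ (1 / 2 : ℝ) ≤ T := by
      calc (T : ℝ) ^ (1 / 2 : ℝ) ≤ (T : ℝ) ^ (1 : ℝ) := Real.rpow_le_rpow_of_exponent_le hT1 (by norm_num)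
        _ = T := Real.rpow_one _
    have h2 : (N : ℝ) ≤ ((Y ^ k + Y : ℕ) : ℝ) := by
      push_cast
      have h3 : (T : ℝ) ≤ Y := by exact_mod_cast hY1
      push_cast at hN2
      linarith
    have h4 : N ≤ Y ^ k + Y := by exact_mod_cast h2
    refine h4.trans ?_
    obtain ⟨k', rfl⟩ : ∃ k', k = k' + 1 := ⟨k - 1, by omega⟩
    have hY0 : 1 ≤ Y := by omega
    calc Y ^ (k' + 1) + Y ≤ Y ^ (k' + 1) + (Y + 1) ^ k' := by
          have h6 : Y ≤ (Y + 1) ^ k' := by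
            calc Y ≤ (Y + 1) ^ 1 := by rw [pow_one]; omega
              _ ≤ (Y + 1) ^ k' := Nat.pow_le_pow_right (by omega) (by omega)
          omega
      _ ≤ Y * (Y + 1) ^ k' + (Y + 1) ^ k' := by
          have h6 : Y ^ (k' + 1) ≤ Y * (Y + 1) ^ k' := by
            rw [pow_succ']
            exact Nat.mul_le_mul_left _ (Nat.pow_le_pow_left (by omega) k')
          omega
      _ = (Y + 1) ^ (k' + 1) := by ring
  have hN2T : N ≤ (2 * T) ^ k := hNY.trans (Nat.pow_le_pow_left (by omega) k)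
  have hNT : T ^ k ≤ N := (Nat.pow_le_pow_left hY1 k).trans hN1
  refine ⟨N, hev, hNT, hN2T, ?_⟩
  -- logarithms
  have hNpos : 1 ≤ N := le_trans (Nat.one_le_pow _ _ (by omega)) hNT
  have hlogN : Real.log N ≤ 2 * k * Real.log T := by
    have h1 : Real.log N ≤ Real.log (((2 * T) ^ k : ℕ) : ℝ) :=
      Real.log_le_log (by exact_mod_cast hNpos) (by exact_mod_cast hN2T)
    have h2 : Real.log (((2 * T) ^ k : ℕ) : ℝ) = k * Real.log (2 * T) := by
      push_cast
      rw [Real.log_pow]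
    have h3 : Real.log (2 * (T : ℝ)) ≤ 2 * Real.log T := by
      have h4 : (2 : ℝ) * Real.log T = Real.log ((T : ℝ) ^ 2) := by rw [Real.log_pow]; push_cast; ring
      rw [h4]
      refine Real.log_le_log (by positivity) ?_
      have : (2 : ℝ) ≤ T := by exact_mod_cast (by omega : 2 ≤ T)
      nlinarith
    rw [h2] at h1
    nlinarith
  have hlogN0 : 0 ≤ Real.log (N : ℝ) := Real.log_natCast_nonneg N
  have hlogT1 : 1 ≤ Real.log (T : ℝ) := by
    have h3 : (3 : ℝ) ≤ T := by exact_mod_cast (by omega : 3 ≤ T)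
    have h2 : Real.exp 1 ≤ T := by
      have := Real.exp_one_lt_d9
      linarith
    calc (1 : ℝ) = Real.log (Real.exp 1) := (Real.log_exp 1).symm
      _ ≤ Real.log T := Real.log_le_log (Real.exp_pos 1) h2
  have hlog2 : Real.log (N : ℝ) ^ 2 ≤ (4 * k ^ 2) * Real.log T ^ 2 := by
    calc Real.log (N : ℝ) ^ 2 ≤ (2 * k * Real.log T) ^ 2 := pow_le_pow_left₀ hlogN0 hlogN 2
      _ = (4 * k ^ 2) * Real.log T ^ 2 := by ring
  -- the root
  obtain ⟨ρ, hρ⟩ : ∃ ρ : ℝ, ρ = (N : ℝ) ^ (1 / (k : ℝ)) := ⟨_, rfl⟩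
  have hroot : ∀ a : ℕ, ((a ^ k : ℕ) : ℝ) ^ (1 / (k : ℝ)) = a := by
    intro a
    push_cast
    rw [← Real.rpow_natCast, ← Real.rpow_mul (Nat.cast_nonneg a), mul_one_div_cancel hk0.ne', Real.rpow_one]
  have hρ1 : (Y : ℝ) ≤ ρ := by
    rw [hρ, ← hroot Y]
    exact Real.rpow_le_rpow (by positivity) (by exact_mod_cast hN1) (by positivity)
  have hρ2 : ρ ≤ Y + 1 := by
    have h1 := hroot (Y + 1)
    push_cast at h1
    rw [hρ, ← h1]
    refine Real.rpow_le_rpow (by positivity) ?_ (by positivity)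
    exact_mod_cast hNY
  intro j hj1 hjJ c hc p hp hpn hprime
  set lam : ℝ := c * (j : ℝ) ^ (1 / (k : ℝ)) with hlam
  have hlamΛ : lam ∈ Λ := by
    rw [hΛd, mem_image]
    exact ⟨(c, j), mem_product.2 ⟨hc, mem_Icc.2 ⟨hj1, hjJ⟩⟩, rfl⟩
  have hlam0 := hΛ lam hlamΛ
  have e1 : c * ((j * N : ℕ) : ℝ) ^ (1 / (k : ℝ)) = lam * ρ := by
    push_cast
    rw [Real.mul_rpow (Nat.cast_nonneg j) (Nat.cast_nonneg N), hlam, hρ]
    ring
  rw [e1] at hpn
  have e2 : |(p : ℝ) - lam * Y| ≤ h := by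
    have h1 : |lam * ρ - lam * Y| ≤ lam := by
      rw [← mul_sub, abs_mul, abs_of_pos hlam0, abs_of_nonneg (by linarith)]
      nlinarith
    have h2 : |(p : ℝ) - lam * Y| ≤ |(p : ℝ) - lam * ρ| + |lam * ρ - lam * Y| := by
      have h3 : (p : ℝ) - lam * Y = ((p : ℝ) - lam * ρ) + (lam * ρ - lam * Y) := by ring
      rw [h3]
      exact abs_add_le _ _
    have h4 : C * Real.log N ^ 2 ≤ max C 0 * (4 * k ^ 2) * Real.log T ^ 2 := by
      calc C * Real.log N ^ 2 ≤ max C 0 * Real.log N ^ 2 :=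
            mul_le_mul_of_nonneg_right (le_max_left _ _) (by positivity)
        _ ≤ max C 0 * ((4 * k ^ 2) * Real.log T ^ 2) :=
            mul_le_mul_of_nonneg_left hlog2 (le_max_right _ _)
        _ = _ := by ring
    have h5 : lam ≤ G * Real.log T ^ 2 := by
      have h6 : 1 ≤ Real.log (T : ℝ) ^ 2 := one_le_pow₀ hlogT1
      exact (hGle lam hlamΛ).trans (le_mul_of_one_le_right hG0 h6)
    have h7 : h = max C 0 * (4 * k ^ 2) * Real.log T ^ 2 + G * Real.log T ^ 2 + Real.log T ^ 2 := by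
      rw [hh, hC1]; ring
    have h8 : 0 ≤ Real.log (T : ℝ) ^ 2 := by positivity
    rw [h7]
    linarith
  have hT3 : C1 * Real.log T ^ 2 ≤ T := by
    have := hT₃ T (by omega)
    rwa [Real.rpow_one] at this
  have hpD : p ≤ D * T := by
    have h1 : (p : ℝ) ≤ lam * Y + h := by
      rw [abs_le] at e2
      linarith [e2.2]
    have h2 : lam * Y ≤ (2 * G) * T := by
      have h3 : (Y : ℝ) ≤ 2 * T := by exact_mod_cast hY2.le
      have h4 := hGle lam hlamΛ
      have h5 : (0 : ℝ) ≤ Y := Nat.cast_nonneg Y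
      calc lam * Y ≤ G * (2 * T) := mul_le_mul h4 h3 h5 hG0
        _ = (2 * G) * T := by ring
    have h6 : (2 * G) * (T : ℝ) + T ≤ ((D * T : ℕ) : ℝ) := by
      have h7 : 2 * G + 1 ≤ D := by
        rw [hD]
        push_cast
        linarith [Nat.le_ceil (2 * G)]
      push_cast
      nlinarith
    have h8 : (p : ℝ) ≤ ((D * T : ℕ) : ℝ) := by linarith
    exact_mod_cast h8
  have hpA : p ∈ A := by
    rw [hA]
    unfold nearP
    rw [mem_biUnion]
    refine ⟨lam, hlamΛ, ?_⟩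
    rw [mem_filter, mem_filter, mem_range]
    exact ⟨⟨by omega, hp⟩, e2⟩
  obtain ⟨r, hr, -, hrd, hrlt⟩ := hN4 (j, -(p : ℤ)) (mem_image.2
    ⟨(j, p), mem_product.2 ⟨mem_Icc.2 ⟨hj1, hjJ⟩, hpA⟩, rfl⟩)
  simp only at hrd hrlt
  have hlt : p < j * N := by
    have := hprime.pos
    omega
  have e5 : (j : ℤ) * (N : ℤ) + -(p : ℤ) = ((j * N - p : ℕ) : ℤ) := by
    rw [Nat.cast_sub hlt.le]; push_cast; ring
  rw [e5] at hrd hrlt
  rw [Nat.abs_cast] at hrlt
  have e6 : r ∣ j * N - p := by exact_mod_cast hrd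
  have e7 : r < j * N - p := by exact_mod_cast hrlt
  rcases (Nat.dvd_prime hprime).1 e6 with h | h
  · exact hr.one_lt.ne' h
  · omega

end Pool.Agent.Q20.AS
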