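import Mathlib
import Pool.Agent.Q20.AS.Moving

/-!
Test positions on the scales `(log x)²` and `√x`.
-/

set_option autoImplicit false

open Finset Filter

namespace Pool.Agent.Q20.AS

/-- `(log x)²` moves by at most one on `[y, y + D (y^δ + 2)]`, `D ≤ y^(1 - 2δ)`. -/
theorem logsq_move (δ : ℝ) (hδ : 0 < δ) (hδ1 : δ < 1 / 2) : ∀ᶠ y : ℕ in atTop, ∀ D : ℕ,
    (D : ℝ) ≤ (y : ℝ) ^ (1 - 2 * δ) → ∀ x : ℕ, y ≤ x → (x : ℝ) ≤ y + D * ((y : ℝ) ^ δ + 2) →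
    |Real.log x ^ 2 - Real.log y ^ 2| ≤ 1 := by
  have hlogsmall : ∀ᶠ y : ℕ in atTop, 9 * Real.log (y : ℝ) ≤ (y : ℝ) ^ δ := by
    have h1 := (isLittleO_log_rpow_atTop hδ).comp_tendsto tendsto_natCast_atTop_atTop
    have h2 := h1.def (show (0 : ℝ) < 1 / 9 by norm_num)
    filter_upwards [h2, eventually_ge_atTop 1] with y hy hy1
    simp only [Function.comp, Real.norm_eq_abs] at hy
    have hy0 : (0 : ℝ) ≤ (y : ℝ) ^ δ := by positivity
    rw [abs_of_nonneg hy0] at hy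
    have := le_abs_self (Real.log (y : ℝ))
    linarith
  have hδ2 : ∀ᶠ y : ℕ in atTop, (2 : ℝ) ≤ (y : ℝ) ^ δ := by
    have h1 := (tendsto_rpow_atTop hδ).comp tendsto_natCast_atTop_atTop
    exact h1.eventually (eventually_ge_atTop 2)
  filter_upwards [hlogsmall, hδ2, eventually_ge_atTop 3] with y hl h2 hy3 D hD x hx1 hx2
  have hy0 : (0 : ℝ) < y := by exact_mod_cast (by omega : 0 < y)
  have hy1 : (1 : ℝ) ≤ y := by exact_mod_cast (by omega : 1 ≤ y)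
  have hxy : (y : ℝ) ≤ x := by exact_mod_cast hx1
  have hx0 : (0 : ℝ) < x := by linarith
  have hly : 0 ≤ Real.log (y : ℝ) := Real.log_nonneg hy1
  have hlxy : Real.log y ≤ Real.log x := Real.log_le_log hy0 hxy
  have hP : (y : ℝ) ^ (1 - 2 * δ) * (y : ℝ) ^ δ = (y : ℝ) ^ (1 - δ) := by
    rw [← Real.rpow_add hy0]; ring_nf
  have hP2 : (y : ℝ) ^ (1 - δ) * (y : ℝ) ^ δ = y := by
    rw [← Real.rpow_add hy0]; simp
  have hdiff : (x : ℝ) - y ≤ 2 * (y : ℝ) ^ (1 - δ) := by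
    calc (x : ℝ) - y ≤ D * ((y : ℝ) ^ δ + 2) := by linarith
      _ ≤ (y : ℝ) ^ (1 - 2 * δ) * (2 * (y : ℝ) ^ δ) := by
          gcongr
          linarith
      _ = 2 * ((y : ℝ) ^ (1 - 2 * δ) * (y : ℝ) ^ δ) := by ring
      _ = _ := by rw [hP]
  have hlog : Real.log x - Real.log y ≤ ((x : ℝ) - y) / y := by
    rw [← Real.log_div hx0.ne' hy0.ne']
    have := Real.log_le_sub_one_of_pos (show 0 < (x : ℝ) / y by positivity)
    calc _ ≤ (x : ℝ) / y - 1 := this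
      _ = _ := by field_simp
  have hd : Real.log x - Real.log y ≤ 2 / (y : ℝ) ^ δ := by
    refine hlog.trans ?_
    rw [div_le_div_iff₀ hy0 (by positivity)]
    calc ((x : ℝ) - y) * (y : ℝ) ^ δ ≤ (2 * (y : ℝ) ^ (1 - δ)) * (y : ℝ) ^ δ := by gcongr
      _ = 2 * ((y : ℝ) ^ (1 - δ) * (y : ℝ) ^ δ) := by ring
      _ = 2 * y := by rw [hP2]
  have hd1 : Real.log x - Real.log y ≤ 1 := by
    refine hd.trans ?_
    rw [div_le_one (by positivity)]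
    exact h2
  have hl1 : 1 ≤ Real.log (y : ℝ) := by
    rw [Real.le_log_iff_exp_le hy0]
    have := Real.exp_one_lt_d9
    have : (3 : ℝ) ≤ y := by exact_mod_cast hy3
    linarith
  have hsum : Real.log x + Real.log y ≤ 3 * Real.log y := by linarith
  have hprod : Real.log x ^ 2 - Real.log y ^ 2 = (Real.log x - Real.log y) * (Real.log x + Real.log y) := by ring
  rw [abs_of_nonneg (by rw [hprod]; exact mul_nonneg (by linarith) (by linarith)), hprod]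
  calc (Real.log x - Real.log y) * (Real.log x + Real.log y)
      ≤ 2 / (y : ℝ) ^ δ * (3 * Real.log y) := by
        gcongr
    _ = (6 * Real.log y) / (y : ℝ) ^ δ := by ring
    _ ≤ 1 := by
        rw [div_le_one (by positivity)]
        linarith

/-- `√x` moves by at most one on `[y, y + D (y^δ + 2)]`, `D ≤ y^(1/2 - 2δ)`. -/
theorem sqrt_move (δ : ℝ) (hδ : 0 < δ) : ∀ᶠ y : ℕ in atTop, ∀ D : ℕ,
    (D : ℝ) ≤ (y : ℝ) ^ (1 / 2 - 2 * δ) → ∀ x : ℕ, y ≤ x → (x : ℝ) ≤ y + D * ((y : ℝ) ^ δ + 2) →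
    |Real.sqrt x - Real.sqrt y| ≤ 1 := by
  have hδ2 : ∀ᶠ y : ℕ in atTop, (2 : ℝ) ≤ (y : ℝ) ^ δ := by
    have h1 := (tendsto_rpow_atTop hδ).comp tendsto_natCast_atTop_atTop
    exact h1.eventually (eventually_ge_atTop 2)
  filter_upwards [hδ2, eventually_ge_atTop 3] with y h2 hy3 D hD x hx1 hx2
  have hy0 : (0 : ℝ) < y := by exact_mod_cast (by omega : 0 < y)
  have hxy : (y : ℝ) ≤ x := by exact_mod_cast hx1
  have hx0 : (0 : ℝ) < x := by linarith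
  have hP : (y : ℝ) ^ (1 / 2 - 2 * δ) * (y : ℝ) ^ δ * (y : ℝ) ^ δ = (y : ℝ) ^ (1 / 2 : ℝ) := by
    rw [← Real.rpow_add hy0, ← Real.rpow_add hy0]; ring_nf
  have hdiff : (x : ℝ) - y ≤ Real.sqrt y := by
    calc (x : ℝ) - y ≤ D * ((y : ℝ) ^ δ + 2) := by linarith
      _ ≤ (y : ℝ) ^ (1 / 2 - 2 * δ) * ((y : ℝ) ^ δ * (y : ℝ) ^ δ) := by
          gcongr
          nlinarith
      _ = (y : ℝ) ^ (1 / 2 - 2 * δ) * (y : ℝ) ^ δ * (y : ℝ) ^ δ := by ring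
      _ = _ := by rw [hP, Real.sqrt_eq_rpow]
  have hs : Real.sqrt y ≤ Real.sqrt x := Real.sqrt_le_sqrt hxy
  have hsy : 0 < Real.sqrt y := Real.sqrt_pos.mpr hy0
  rw [abs_of_nonneg (by linarith)]
  have h3 : (Real.sqrt x - Real.sqrt y) * (Real.sqrt x + Real.sqrt y) = x - y := by
    have e1 := Real.mul_self_sqrt hx0.le
    have e2 := Real.mul_self_sqrt hy0.le
    nlinarith
  by_contra hcon
  push Not at hcon
  nlinarith

/-- Test positions on the scale `(log x)²`. -/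
theorem logWin (C δ R : ℝ) (hδ : 0 < δ) (hδ1 : δ < 1 / 2) : ∀ᶠ y : ℕ in atTop, ∀ D r : ℕ, 1 ≤ D →
    (D : ℝ) ≤ (y : ℝ) ^ (1 - 2 * δ) → ∀ Θ : Finset ℝ, (∀ θ ∈ Θ, |θ| ≤ C) →
    (Θ.card : ℝ) ≤ C * ((D.totient : ℝ) / D) * Real.log y →
    ∃ x : ℕ, y ≤ x ∧ (x : ℝ) ≤ y + D * ((y : ℝ) ^ δ + 2) ∧ x ≡ r [MOD D] ∧
      ∀ θ ∈ Θ, ∀ p : ℕ, p.Prime → R < |(p : ℝ) - (x + θ * Real.log x ^ 2)| := by
  have hC : 0 ≤ max R (max C 0) := (le_max_right _ _).trans (le_max_right _ _)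
  have hbig : ∀ᶠ y : ℕ in atTop, max C 0 + 1 ≤ (y : ℝ) :=
    tendsto_natCast_atTop_atTop.eventually (eventually_ge_atTop _)
  filter_upwards [moving C δ (max R (max C 0)) 3 hδ hC, logsq_move δ hδ hδ1, hbig, eventually_ge_atTop 3]
    with y hmov hlg hb hy3 D r hD1 hD Θ hΘ hcard
  have hy1 : (1 : ℝ) ≤ y := by exact_mod_cast (by omega : 1 ≤ y)
  have hy0 : (0 : ℝ) < y := by linarith
  have hDy : D ≤ y ^ 3 := by
    have h1 : (D : ℝ) ≤ (y : ℝ) ^ (1 : ℝ) :=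
      hD.trans (Real.rpow_le_rpow_of_exponent_le hy1 (by linarith))
    rw [Real.rpow_one] at h1
    have h2 : D ≤ y := by exact_mod_cast h1
    exact h2.trans (Nat.le_self_pow (by norm_num) y)
  have hlog1 : 0 ≤ Real.log (y : ℝ) := Real.log_nonneg hy1
  have hlog2 : Real.log (y : ℝ) ≤ y := (Real.log_le_sub_one_of_pos hy0).trans (by linarith)
  obtain ⟨x, h1, h2, h3, h4⟩ := hmov D r hD1 hDy Θ (fun θ x => θ * Real.log x ^ 2) hcard (by
    intro θ hθ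
    have hθC : |θ| ≤ y := (hΘ θ hθ).trans (by have := le_max_left C 0; linarith)
    have : Real.log (y : ℝ) ^ 2 ≤ (y : ℝ) ^ 2 := by gcongr
    rw [abs_mul, abs_of_nonneg (sq_nonneg (Real.log (y : ℝ)))]
    calc |θ| * Real.log (y : ℝ) ^ 2 ≤ y * (y : ℝ) ^ 2 := by gcongr
      _ = (y : ℝ) ^ 3 := by ring) (by
    intro θ hθ x hx1 hx2
    have := hlg D hD x hx1 hx2
    rw [← mul_sub, abs_mul]
    calc |θ| * |Real.log x ^ 2 - Real.log y ^ 2| ≤ C * 1 := by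
          have hC0 : 0 ≤ C := (abs_nonneg θ).trans (hΘ θ hθ)
          exact mul_le_mul (hΘ θ hθ) this (abs_nonneg _) hC0
      _ ≤ _ := by
          rw [mul_one]
          exact (le_max_left C 0).trans (le_max_right _ _))
  exact ⟨x, h1, h2, h3, fun θ hθ p hp => lt_of_le_of_lt (le_max_left _ _) (h4 θ hθ p hp)⟩

/-- Test positions on the square root scale. -/
theorem sqrtWin (C δ R : ℝ) (hδ : 0 < δ) : ∀ᶠ y : ℕ in atTop, ∀ D r : ℕ, 1 ≤ D →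
    (D : ℝ) ≤ (y : ℝ) ^ (1 / 2 - 2 * δ) → ∀ Θ : Finset ℝ, (∀ θ ∈ Θ, |θ| ≤ C) →
    (Θ.card : ℝ) ≤ C * ((D.totient : ℝ) / D) * Real.log y →
    ∃ x : ℕ, y ≤ x ∧ (x : ℝ) ≤ y + D * ((y : ℝ) ^ δ + 2) ∧ x ≡ r [MOD D] ∧
      ∀ θ ∈ Θ, ∀ p : ℕ, p.Prime → R < |(p : ℝ) - (Real.sqrt x + θ) ^ 2| := by
  have hC : 0 ≤ max R (2 * max C 0) :=
    (by have := le_max_right C 0; linarith : 0 ≤ 2 * max C 0).trans (le_max_right _ _)
  have hbig : ∀ᶠ y : ℕ in atTop, max C 0 + 3 ≤ (y : ℝ) :=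
    tendsto_natCast_atTop_atTop.eventually (eventually_ge_atTop _)
  filter_upwards [moving C δ (max R (2 * max C 0)) 3 hδ hC, sqrt_move δ hδ, hbig, eventually_ge_atTop 3]
    with y hmov hlg hb hy3 D r hD1 hD Θ hΘ hcard
  have hy1 : (1 : ℝ) ≤ y := by exact_mod_cast (by omega : 1 ≤ y)
  have hy0 : (0 : ℝ) < y := by linarith
  have hDy : D ≤ y ^ 3 := by
    have h1 : (D : ℝ) ≤ (y : ℝ) ^ (1 : ℝ) :=
      hD.trans (Real.rpow_le_rpow_of_exponent_le hy1 (by linarith))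
    rw [Real.rpow_one] at h1
    have h2 : D ≤ y := by exact_mod_cast h1
    exact h2.trans (Nat.le_self_pow (by norm_num) y)
  have hsq : Real.sqrt (y : ℝ) ≤ y := by
    rw [Real.sqrt_le_left hy0.le]
    nlinarith
  have hsq0 : 0 ≤ Real.sqrt (y : ℝ) := Real.sqrt_nonneg _
  obtain ⟨x, h1, h2, h3, h4⟩ := hmov D r hD1 hDy Θ (fun θ x => 2 * θ * Real.sqrt x + θ ^ 2) hcard (by
    intro θ hθ
    have hθC : |θ| ≤ y := (hΘ θ hθ).trans (by have := le_max_left C 0; linarith)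
    have hy3' : (3 : ℝ) ≤ y := by have := le_max_right C 0; linarith
    have h5 : |2 * θ * Real.sqrt y| ≤ 2 * y * y := by
      rw [abs_mul, abs_mul, abs_of_nonneg hsq0, abs_of_pos (by norm_num : (0 : ℝ) < 2)]
      gcongr
    have h6 : |θ ^ 2| ≤ (y : ℝ) ^ 2 := by
      rw [abs_pow]
      gcongr
    calc |2 * θ * Real.sqrt y + θ ^ 2| ≤ |2 * θ * Real.sqrt y| + |θ ^ 2| := abs_add_le _ _
      _ ≤ 2 * y * y + (y : ℝ) ^ 2 := by gcongr
      _ = 3 * (y : ℝ) ^ 2 := by ring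
      _ ≤ y * (y : ℝ) ^ 2 := by gcongr
      _ = (y : ℝ) ^ 3 := by ring) (by
    intro θ hθ x hx1 hx2
    have := hlg D hD x hx1 hx2
    have h5 : 2 * θ * Real.sqrt x + θ ^ 2 - (2 * θ * Real.sqrt y + θ ^ 2) =
        2 * θ * (Real.sqrt x - Real.sqrt y) := by ring
    have hC0 : 0 ≤ C := (abs_nonneg θ).trans (hΘ θ hθ)
    rw [h5, abs_mul, abs_mul, abs_of_pos (by norm_num : (0 : ℝ) < 2)]
    calc 2 * |θ| * |Real.sqrt x - Real.sqrt y| ≤ 2 * C * 1 := by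
          have := hΘ θ hθ
          gcongr
      _ ≤ _ := by
          have := le_max_left C 0
          have h7 := le_max_right R (2 * max C 0)
          linarith)
  refine ⟨x, h1, h2, h3, fun θ hθ p hp => lt_of_le_of_lt (le_max_left R (2 * max C 0)) ?_⟩
  have h5 := h4 θ hθ p hp
  have h6 : (Real.sqrt x + θ) ^ 2 = x + (2 * θ * Real.sqrt x + θ ^ 2) := by
    have := Real.sq_sqrt (Nat.cast_nonneg x : (0 : ℝ) ≤ x)
    nlinarith
  rw [h6]
  exact h5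

end Pool.Agent.Q20.AS
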